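import Mathlib.Combinatorics.Hall.Basic
import Mathlib.Data.Finset.Card
import Mathlib.Data.Fintype.Basic
import Mathlib.Data.Fintype.Card
import Mathlib.Data.Fintype.Sum
import Mathlib.Tactic

/-!
# Trees, induced matchings across a cut and Kőnig's theorem
-/

set_option autoImplicit false
set_option linter.unusedSectionVars false

namespace Pool.T9h45.MM

open Finset

/-- Rooted binary trees with leaves labelled by vertices. -/
inductive LeafTree (V : Type) : Type
  | leaf (v : V) : LeafTree V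
  | node (l r : LeafTree V) : LeafTree V

/-- The labels of the leaves. -/
def LeafTree.labels {V : Type} [DecidableEq V] : LeafTree V → Finset V
  | .leaf v => {v}
  | .node l r => l.labels ∪ r.labels

/-- the label sets of the subtrees -/
def LeafTree.sets {V : Type} [DecidableEq V] : LeafTree V → Set (Set V)
  | .leaf v => {{v}}
  | .node l r => {((l.labels ∪ r.labels : Finset V) : Set V)} ∪ (l.sets ∪ r.sets)

/-- an induced matching with `m` edges between `Y` and its complement -/
def Mt {V : Type} (R : V → V → Prop) (m : ℕ) (Y : Set V) : Prop :=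
  ∃ x y : Fin m → V, (∀ i, x i ∈ Y ∧ y i ∉ Y ∧ R (x i) (y i)) ∧
    ∀ i j, i ≠ j → ¬ R (x i) (x j) ∧ ¬ R (x i) (y j) ∧ ¬ R (y i) (y j)

theorem Mt.compl {V : Type} {R : V → V → Prop} {m : ℕ} {Y : Set V} (hs : ∀ a b, R a b → R b a)
    (h : Mt R m Y) : Mt R m Yᶜ := by
  obtain ⟨x, y, h, hn⟩ := h
  exact ⟨y, x, fun i => ⟨(h i).2.1, fun hc => hc (h i).1, hs _ _ (h i).2.2⟩,
    fun i j hij => ⟨(hn i j hij).2.2, fun h' => (hn j i hij.symm).2.1 (hs _ _ h'),
      (hn i j hij).1⟩⟩

/-- lifting of an induced matching; first case -/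
theorem lift1 {V : Type} [DecidableEq V] {R R' : V → V → Prop} {u v : V} (huv : R u v)
    (hs : ∀ a b, R a b → R b a)
    (h2 : ∀ x y, x ≠ u → y ≠ u → R' x y → R x y)
    (h3 : ∀ y, R' u y → R u y ∨ R v y) (h4 : ∀ x y, x ≠ v → y ≠ v → R x y → R' x y)
    (h5 : ∀ y, y ≠ u → y ≠ v → R v y → R' u y) {m : ℕ} {Y : Set V} {x y : Fin m → V}
    (h : ∀ i, x i ∈ Y ∧ y i ∉ Y ∧ R' (x i) (y i))
    (hn : ∀ i j, i ≠ j → ¬ R' (x i) (x j) ∧ ¬ R' (x i) (y j) ∧ ¬ R' (y i) (y j))
    (hxv : ∀ i, x i ≠ v) (hyv : ∀ i, y i ≠ v) {i : Fin m} (hi : x i = u) : Mt R m Y := by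
  have hxu : ∀ j, j ≠ i → x j ≠ u := by
    intro j hj hju
    have h6 := (h j).2.2
    rw [hju, ← hi] at h6
    exact (hn i j hj.symm).2.1 h6
  have hyu : ∀ j, y j ≠ u := by
    intro j hj
    apply (h j).2.1
    rw [hj, ← hi]
    exact (h i).1
  have hold : ∀ j k, j ≠ k → ¬ R (x j) (x k) ∧ ¬ R (x j) (y k) ∧ ¬ R (y j) (y k) :=
    fun j k hjk => ⟨fun h' => (hn j k hjk).1 (h4 _ _ (hxv j) (hxv k) h'),
      fun h' => (hn j k hjk).2.1 (h4 _ _ (hxv j) (hyv k) h'),
      fun h' => (hn j k hjk).2.2 (h4 _ _ (hyv j) (hyv k) h')⟩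
  have hadj : ∀ j, j ≠ i → R (x j) (y j) := fun j hj => h2 _ _ (hxu j hj) (hyu j) (h j).2.2
  have h6 := (h i).2.2
  rw [hi] at h6
  rcases h3 _ h6 with h7 | h7
  · refine ⟨x, y, fun j => ⟨(h j).1, (h j).2.1, ?_⟩, hold⟩
    by_cases hj : j = i
    · rw [hj, hi]
      exact h7
    · exact hadj j hj
  · have hvx : ∀ j, j ≠ i → ¬ R v (x j) := by
      intro j hj h'
      apply (hn i j hj.symm).1
      rw [hi]
      exact h5 _ (hxu j hj) (hxv j) h'
    have hvy : ∀ j, j ≠ i → ¬ R v (y j) := by
      intro j hj h'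
      apply (hn i j hj.symm).2.1
      rw [hi]
      exact h5 _ (hyu j) (hyv j) h'
    by_cases hv : v ∈ Y
    · refine ⟨Function.update x i v, y, ?_, ?_⟩
      · intro j
        by_cases hj : j = i
        · subst hj
          rw [Function.update_self]
          exact ⟨hv, (h j).2.1, h7⟩
        · rw [Function.update_of_ne hj]
          exact ⟨(h j).1, (h j).2.1, hadj j hj⟩
      · intro j k hjk
        by_cases hj : j = i
        · subst hj
          rw [Function.update_self, Function.update_of_ne hjk.symm]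
          exact ⟨hvx k hjk.symm, hvy k hjk.symm, (hold j k hjk).2.2⟩
        · rw [Function.update_of_ne hj]
          by_cases hk : k = i
          · subst hk
            rw [Function.update_self]
            exact ⟨fun h' => hvx j hj (hs _ _ h'), (hold j k hjk).2⟩
          · rw [Function.update_of_ne hk]
            exact hold j k hjk
    · refine ⟨x, Function.update y i v, ?_, ?_⟩
      · intro j
        by_cases hj : j = i
        · subst hj
          rw [Function.update_self, hi]
          refine ⟨?_, hv, huv⟩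
          rw [← hi]
          exact (h j).1
        · rw [Function.update_of_ne hj]
          exact ⟨(h j).1, (h j).2.1, hadj j hj⟩
      · intro j k hjk
        by_cases hj : j = i
        · subst hj
          rw [Function.update_self, Function.update_of_ne hjk.symm]
          exact ⟨(hold j k hjk).1, (hold j k hjk).2.1, hvy k hjk.symm⟩
        · rw [Function.update_of_ne hj]
          by_cases hk : k = i
          · subst hk
            rw [Function.update_self]
            exact ⟨(hold j k hjk).1, fun h' => hvx j hj (hs _ _ h'),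
              fun h' => hvy j hj (hs _ _ h')⟩
          · rw [Function.update_of_ne hk]
            exact hold j k hjk

/-- lifting of an induced matching -/
theorem lift {V : Type} [DecidableEq V] {R R' : V → V → Prop} {u v : V} (huv : R u v)
    (hs : ∀ a b, R a b → R b a) (hs' : ∀ a b, R' a b → R' b a)
    (h1 : ∀ x y, R' x y → x ≠ v)
    (h2 : ∀ x y, x ≠ u → y ≠ u → R' x y → R x y)
    (h3 : ∀ y, R' u y → R u y ∨ R v y) (h4 : ∀ x y, x ≠ v → y ≠ v → R x y → R' x y)
    (h5 : ∀ y, y ≠ u → y ≠ v → R v y → R' u y) {m : ℕ} {Y : Set V} (h : Mt R' m Y) :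
    Mt R m Y := by
  obtain ⟨x, y, h, hn⟩ := h
  have hxv : ∀ i, x i ≠ v := fun i => h1 _ _ (h i).2.2
  have hyv : ∀ i, y i ≠ v := fun i => h1 _ _ (hs' _ _ (h i).2.2)
  by_cases hx : ∃ i, x i = u
  · obtain ⟨i, hi⟩ := hx
    exact lift1 huv hs h2 h3 h4 h5 h hn hxv hyv hi
  by_cases hy : ∃ i, y i = u
  · obtain ⟨i, hi⟩ := hy
    have h6 : Mt R m Yᶜ := by
      refine lift1 huv hs h2 h3 h4 h5 (x := y) (y := x) ?_ ?_ hyv hxv hi
      · exact fun j => ⟨(h j).2.1, fun hc => hc (h j).1, hs' _ _ (h j).2.2⟩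
      · exact fun j k hjk => ⟨(hn j k hjk).2.2,
          fun h' => (hn k j hjk.symm).2.1 (hs' _ _ h'), (hn j k hjk).1⟩
    have h7 := h6.compl hs
    rwa [compl_compl] at h7
  · push Not at hx hy
    exact ⟨x, y, fun i => ⟨(h i).1, (h i).2.1, h2 _ _ (hx i) (hy i) (h i).2.2⟩,
      fun j k hjk => ⟨fun h' => (hn j k hjk).1 (h4 _ _ (hxv j) (hxv k) h'),
        fun h' => (hn j k hjk).2.1 (h4 _ _ (hxv j) (hyv k) h'),
        fun h' => (hn j k hjk).2.2 (h4 _ _ (hyv j) (hyv k) h')⟩⟩

/-- Kőnig's theorem -/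
theorem konig {V : Type} [DecidableEq V] (R : V → V → Prop) (A B : Finset V) (s : ℕ)
    (hcov : ∀ X : Finset V, (∀ a ∈ A, ∀ b ∈ B, R a b → a ∈ X ∨ b ∈ X) → s ≤ #X) :
    ∃ A' ⊆ A, s ≤ #A' ∧ ∃ g : V → V, (∀ a ∈ A', g a ∈ B ∧ R a (g a)) ∧ Set.InjOn g A' := by
  classical
  have hsA : s ≤ #A := hcov A fun a ha b _ _ => Or.inl ha
  obtain ⟨d, hd⟩ : ∃ d, #A = s + d := ⟨#A - s, by omega⟩
  let t : A → Finset (V ⊕ Fin d) := fun a =>
    ((B.filter fun b => R a b).image Sum.inl) ∪ (univ.image Sum.inr)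
  have hall : ∀ S : Finset A, #S ≤ #(S.biUnion t) := by
    intro S
    rcases S.eq_empty_or_nonempty with rfl | hS
    · simp
    obtain ⟨a₀, ha₀⟩ := hS
    obtain ⟨N, hN⟩ : ∃ N : Finset V, N = B.filter fun b => ∃ a ∈ S, R a b := ⟨_, rfl⟩
    have h1 : #S ≤ #N + d := by
      have h2 := hcov ((A \ S.image Subtype.val) ∪ N) (by
        intro a ha b hb hab
        by_cases haS : a ∈ S.image Subtype.val
        · right
          obtain ⟨a', ha', rfl⟩ := mem_image.1 haS
          refine mem_union_right _ ?_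
          rw [hN, mem_filter]
          exact ⟨hb, a', ha', hab⟩
        · left
          exact mem_union_left _ (mem_sdiff.2 ⟨ha, haS⟩))
      have h3 : #(A \ S.image Subtype.val) = #A - #S := by
        rw [card_sdiff_of_subset, card_image_of_injective _ Subtype.val_injective]
        intro a ha
        obtain ⟨a', _, rfl⟩ := mem_image.1 ha
        exact a'.2
      have h4 := card_union_le (A \ S.image Subtype.val) N
      have h5 : #S ≤ #A := by
        have := card_le_univ S
        rwa [Fintype.card_coe] at this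
      omega
    refine h1.trans ?_
    have h2 : N.image Sum.inl ∪ (univ : Finset (Fin d)).image Sum.inr ⊆ S.biUnion t := by
      intro z hz
      rw [mem_biUnion]
      rcases mem_union.1 hz with hz | hz
      · obtain ⟨b, hb, rfl⟩ := mem_image.1 hz
        rw [hN, mem_filter] at hb
        obtain ⟨hb, a, ha, hab⟩ := hb
        exact ⟨a, ha, mem_union_left _ (mem_image_of_mem _ (mem_filter.2 ⟨hb, hab⟩))⟩
      · exact ⟨a₀, ha₀, mem_union_right _ hz⟩
    refine le_trans (le_of_eq ?_) (card_le_card h2)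
    rw [card_union_of_disjoint, card_image_of_injective _ Sum.inl_injective,
      card_image_of_injective _ Sum.inr_injective, card_univ, Fintype.card_fin]
    rw [Finset.disjoint_left]
    intro z hz hz'
    obtain ⟨b, _, rfl⟩ := mem_image.1 hz
    obtain ⟨c, _, hc⟩ := mem_image.1 hz'
    exact absurd hc (by simp)
  obtain ⟨f, hf, hft⟩ := (Finset.all_card_le_biUnion_card_iff_exists_injective t).1 hall
  obtain ⟨A', hA'⟩ : ∃ A' : Finset A, A' = univ.filter fun a => ∃ b, f a = Sum.inl b := ⟨_, rfl⟩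
  have hcard : s ≤ #A' := by
    have h1 : #(univ \ A') ≤ d := by
      have h2 : ∀ a ∈ univ \ A', ∃ c : Fin d, f a = Sum.inr c := by
        intro a ha
        rw [hA', mem_sdiff, mem_filter] at ha
        rcases hfa : f a with b | c
        · exact absurd ⟨mem_univ _, b, hfa⟩ ha.2
        · exact ⟨c, rfl⟩
      have h3 : (univ \ A').image f ⊆ (univ : Finset (Fin d)).image Sum.inr := by
        intro z hz
        obtain ⟨a, ha, rfl⟩ := mem_image.1 hz
        obtain ⟨c, hc⟩ := h2 a ha
        rw [hc]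
        exact mem_image_of_mem _ (mem_univ _)
      have h4 := card_le_card h3
      rw [card_image_of_injective _ hf, card_image_of_injective _ Sum.inr_injective, card_univ,
        Fintype.card_fin] at h4
      exact h4
    have h5 : #(univ \ A') + #A' = #A := by
      rw [card_sdiff_add_card_eq_card (subset_univ _), card_univ, Fintype.card_coe]
    omega
  have hg : ∀ v : V, ∃ w : V, ∀ hv : v ∈ A, (⟨v, hv⟩ : A) ∈ A' → f ⟨v, hv⟩ = Sum.inl w := by
    intro v
    by_cases hv : ∃ hv : v ∈ A, (⟨v, hv⟩ : A) ∈ A'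
    · obtain ⟨hv1, hv2⟩ := hv
      rw [hA', mem_filter] at hv2
      obtain ⟨-, b, hb⟩ := hv2
      exact ⟨b, fun _ _ => hb⟩
    · exact ⟨v, fun h1 h2 => absurd ⟨h1, h2⟩ hv⟩
  choose g hg using hg
  refine ⟨A'.image Subtype.val, ?_, ?_, g, ?_, ?_⟩
  · intro v hv
    obtain ⟨a, _, rfl⟩ := mem_image.1 hv
    exact a.2
  · rw [card_image_of_injective _ Subtype.val_injective]
    exact hcard
  · intro v hv
    obtain ⟨a, ha, rfl⟩ := mem_image.1 hv
    have h1 := hg a a.2 ha
    have h2 := hft a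
    have h3 : f a = Sum.inl (g a) := h1
    rw [h3] at h2
    rcases mem_union.1 h2 with h4 | h4
    · obtain ⟨b, hb, hbb⟩ := mem_image.1 h4
      rw [Sum.inl_injective hbb] at hb
      exact mem_filter.1 hb
    · obtain ⟨c, _, hc⟩ := mem_image.1 h4
      exact absurd hc (by simp)
  · intro v hv w hw hvw
    obtain ⟨a, ha, rfl⟩ := mem_image.1 (mem_coe.1 hv)
    obtain ⟨b, hb, rfl⟩ := mem_image.1 (mem_coe.1 hw)
    have h1 : f a = Sum.inl (g a) := hg a a.2 ha
    have h2 : f b = Sum.inl (g b) := hg b b.2 hb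
    have hvw' : g a = g b := hvw
    have h3 : f a = f b := by rw [h1, h2, hvw']
    rw [hf h3]

end Pool.T9h45.MM
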