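import Pool.Agent.T9h45.MM.Tree6
import Pool.Agent.T9h45.MM.Tree

set_option autoImplicit false
set_option linter.unusedSectionVars false

/-! # Maximum matching width four -/

namespace Pool.T9h45.MM

open Finset Pool.Agent.TH462.T4 Pool.Agent.TH676.T4 Pool.Agent.TH497.T4 Pool.Agent.N399.TB

variable {V E : Type} [Fintype V] [DecidableEq V] [Fintype E] [DecidableEq E]

/-! ## three trees -/

def ti (a : Fin 12) : Fin 3 := ⟨a.val / 4, by omega⟩
def tq (a : Fin 12) : Fin 4 := ⟨a.val % 4, by omega⟩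
def ui (u : Fin 6) : Fin 3 := ⟨u.val / 2, by omega⟩
def us (u : Fin 6) : Fin 2 := ⟨u.val % 2, by omega⟩

theorem idL : ∀ a b : Fin 12, ti a = ti b → tq a = tq b → a = b := by decide
theorem idX : ∀ a b : Fin 6, ui a = ui b → us a = us b → a = b := by decide
theorem surL : ∀ (i : Fin 3) (t : Fin 4), ∃ a, ti a = i ∧ tq a = t := by decide
theorem surX : ∀ (i : Fin 3) (t : Fin 2), ∃ u, ui u = i ∧ us u = t := by decide
theorem rel1 : ∀ u : Fin 6, ui (mate u) = ui u ∧ us (mate u) = 1 - us u := by decide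
theorem rel2 : ∀ u : Fin 6, ti (lf0 u) = ui u ∧ tq (lf0 u) = ⟨2 * (us u).val, by omega⟩ ∧
    ti (lf1 u) = ui u ∧ tq (lf1 u) = ⟨2 * (us u).val + 1, by omega⟩ := by decide
theorem rel3 : ∀ a : Fin 12, ui (cen a) = ti a ∧ us (cen a) = ⟨(tq a).val / 2, by omega⟩ := by decide

/-- **No three trees.** -/
theorem no_three {src dst : E → V} (hM : MinCx src dst) (S : Fin 3 → Finset V)
    (hdis : ∀ i j, i ≠ j → Disjoint (S i) (S j)) (hcov : ∀ v, Nis src dst v → ∃ i, v ∈ S i)
    (hodd : ∀ v, Nis src dst v → Odd (nbr src dst v).card)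
    (h3 : ∀ v, Nis src dst v → 3 ≤ (nbr src dst v).card)
    (hT : ∀ i, ∃ x l, TS src dst (S i) x l) : False := by
  choose x l hx using hT
  have hij : ∀ {i j : Fin 3} {v w : V}, v ∈ S i → w ∈ S j → v = w → i = j := by
    intro i j v w hv hw hvw
    by_contra hne
    exact disjoint_left.1 (hdis i j hne) hv (hvw ▸ hw)
  have hst : St src dst (fun a => l (ti a) (tq a)) (fun u => x (ui u) (us u)) := by
    refine ⟨fun a b h => ?_, fun a b h => ?_, fun a u h => ?_, fun v hv => ?_, fun u w hA hne => ?_,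
      fun u => ?_, fun a => ?_, fun a => ?_⟩
    · have h1 := hij ((hx _).ml _) ((hx _).ml _) h
      change l (ti a) (tq a) = l (ti b) (tq b) at h
      rw [h1] at h
      exact idL a b h1 ((hx _).injl h)
    · have h1 := hij ((hx _).mx _) ((hx _).mx _) h
      change x (ui a) (us a) = x (ui b) (us b) at h
      rw [h1] at h
      exact idX a b h1 ((hx _).injx h)
    · have h1 := hij ((hx _).ml _) ((hx _).mx _) h
      change l (ti a) (tq a) = x (ui u) (us u) at h
      rw [h1] at h
      exact (hx _).ne _ _ h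
    · obtain ⟨i, hi⟩ := hcov v hv
      rcases (hx i).cov v hi with ⟨s, hs⟩ | ⟨t, ht⟩
      · right
        obtain ⟨u, h1, h2⟩ := surX i s
        exact ⟨u, by rw [h1, h2]; exact hs⟩
      · left
        obtain ⟨a, h1, h2⟩ := surL i t
        exact ⟨a, by rw [h1, h2]; exact ht⟩
    · have h1 := (hx (ui u)).nb (us u) w (mem_nbr.2 ⟨Ne.symm hne, hA⟩)
      obtain ⟨m1, m2⟩ := rel1 u
      obtain ⟨m3, m4, m5, m6⟩ := rel2 u
      rw [m1, m2, m3, m4, m5, m6]
      exact h1
    · obtain ⟨m1, m2⟩ := rel1 u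
      rw [m1, m2]
      exact (mem_nbr.1 ((hx (ui u)).adj1 (us u))).2
    · obtain ⟨m1, m2⟩ := rel3 a
      rw [m1, m2]
      exact (mem_nbr.1 ((hx (ti a)).adj2 (tq a))).2
    · have h1 : Nis src dst (l (ti a) (tq a)) := nbr_nis ((hx _).adj2 (tq a))
      exact ⟨hodd _ h1, h3 _ h1⟩
  exact hst.flow hM

/-! ## covers of the cuts -/

/-- the edges between `Y` and the other vertices are covered by four vertices -/
def Cv (src dst : E → V) (Y : Set V) : Prop :=
  ∃ C : Finset V, C.card ≤ 4 ∧ ∀ e, ¬ (src e ∈ Y ↔ dst e ∈ Y) → src e ∈ C ∨ dst e ∈ C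

theorem mc_cv (F : Set (Set V)) : MC (V := V) (E := E) (fun src dst => ∀ Y ∈ F, Cv src dst Y) where
  del := by
    intro src dst e h _ Y hY
    obtain ⟨C, h1, h2⟩ := h Y hY
    refine ⟨C, h1, fun d hd => ?_⟩
    unfold Pool.Agent.TH462.T4.lp at hd ⊢
    by_cases hde : d ∈ ({e} : Finset E)
    · rw [if_pos hde] at hd
      exact absurd Iff.rfl hd
    · rw [if_neg hde] at hd ⊢
      exact h2 d hd
  con := by
    intro src dst e h hne Y hY
    obtain ⟨C, h1, h2⟩ := h Y hY
    refine ⟨C.image (ctr (src e) (dst e)), card_image_le.trans h1, fun d hd => ?_⟩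
    have hC : ∀ x, x ∈ C → ctr (src e) (dst e) x ∈ C.image (ctr (src e) (dst e)) :=
      fun x hx => mem_image_of_mem _ hx
    have hc : ∀ x, (x = dst e ∧ ctr (src e) (dst e) x = src e) ∨
        (x ≠ dst e ∧ ctr (src e) (dst e) x = x) := by
      intro x
      unfold ctr
      by_cases hx : x = dst e
      · exact Or.inl ⟨hx, if_pos hx⟩
      · exact Or.inr ⟨hx, if_neg hx⟩
    have hu : ctr (src e) (dst e) (src e) = src e := by
      unfold ctr; exact if_neg hne
    have hv : ctr (src e) (dst e) (dst e) = src e := by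
      unfold ctr; exact if_pos rfl
    change ctr (src e) (dst e) (src d) ∈ _ ∨ ctr (src e) (dst e) (dst d) ∈ _
    change ¬ (ctr (src e) (dst e) (src d) ∈ Y ↔ ctr (src e) (dst e) (dst d) ∈ Y) at hd
    by_cases hcr : (src e ∈ Y ↔ dst e ∈ Y)
    · have k : ∀ x, (ctr (src e) (dst e) x ∈ Y ↔ x ∈ Y) := by
        intro x
        rcases hc x with ⟨a, b⟩ | ⟨a, b⟩
        · rw [b, a]; exact hcr
        · rw [b]
      rw [k, k] at hd
      exact (h2 d hd).imp (hC _) (hC _)
    · have hsC : src e ∈ C.image (ctr (src e) (dst e)) := by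
        rcases h2 e hcr with a | a
        · have := hC _ a
          rwa [hu] at this
        · have := hC _ a
          rwa [hv] at this
      rcases hc (src d) with ⟨a1, b1⟩ | ⟨a1, b1⟩
      · left; rw [b1]; exact hsC
      · rcases hc (dst d) with ⟨a2, b2⟩ | ⟨a2, b2⟩
        · right; rw [b2]; exact hsC
        · rw [b1, b2] at hd
          exact (h2 d hd).imp (hC _) (hC _)

/-- one of the sides of a cut is small -/
theorem side_small {src dst : E → V} (hM : MinCx src dst) (N : Finset V)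
    (hN : ∀ v, v ∈ N ↔ Nis src dst v) (Y : Finset V) {C : Finset V} (hC : C.card ≤ 4)
    (h : ∀ e, ¬ (src e ∈ Y ↔ dst e ∈ Y) → src e ∈ C ∨ dst e ∈ C) :
    ((Y \ C) ∩ N).card ≤ 2 ∨ ((Yᶜ \ C) ∩ N).card ≤ 2 := by
  by_contra hno
  push Not at hno
  obtain ⟨x1, m1, x2, m2, x3, m3, n12, n13, n23⟩ := two_lt_card.1 hno.1
  obtain ⟨y1, k1, y2, k2, y3, k3, l12, l13, l23⟩ := two_lt_card.1 hno.2
  have hcl : Closed src dst C (Y \ C) := by
    intro e he
    rw [mem_union, mem_union, mem_sdiff, mem_sdiff]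
    rw [mem_sdiff, mem_sdiff] at he
    have := h e
    tauto
  have hd : Disjoint (Y \ C) C := sdiff_disjoint
  have hO : ∀ y ∈ (Yᶜ \ C) ∩ N, y ∉ Y \ C ∧ y ∉ C ∧ Nis src dst y := by
    intro y hy
    rw [mem_inter, mem_sdiff, mem_compl, hN] at hy
    rw [mem_sdiff]
    tauto
  have hI : ∀ y ∈ (Y \ C) ∩ N, y ∈ Y \ C ∧ Nis src dst y := by
    intro y hy
    rw [mem_inter, hN] at hy
    exact hy
  exact sep4 hM hcl hd hC (hI _ m1).1 (hI _ m2).1 (hI _ m3).1 n12 n13 n23 (hI _ m1).2 (hI _ m2).2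
    (hI _ m3).2 (hO _ k1).1 (hO _ k1).2.1 (hO _ k2).1 (hO _ k2).2.1 (hO _ k3).1 (hO _ k3).2.1
    l12 l13 l23 (hO _ k1).2.2 (hO _ k2).2.2 (hO _ k3).2.2

/-- a side with six vertices opposite to a large side is a tree -/
theorem side_tree {src dst : E → V} (hM : MinCx src dst) (N : Finset V)
    (hN : ∀ v, v ∈ N ↔ Nis src dst v) (Y : Finset V) {C : Finset V} (hC : C.card ≤ 4)
    (h : ∀ e, ¬ (src e ∈ Y ↔ dst e ∈ Y) → src e ∈ C ∨ dst e ∈ C)
    (h6 : (Y ∩ N).card = 6) (h7 : ((Y \ C) ∩ N).card ≤ 2) :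
    ∃ x l, TS src dst (Y ∩ N) x l := by
  have h1 : Y ∩ N ⊆ ((Y \ C) ∩ N) ∪ C := by
    intro v hv
    rw [mem_inter] at hv
    rw [mem_union, mem_inter, mem_sdiff]
    tauto
  have h2 := card_le_card h1
  have h3 := card_union_le ((Y \ C) ∩ N) C
  have h4 : (Y ∩ N) \ ((Y \ C) ∩ N) ⊆ C := by
    intro v hv
    rw [mem_sdiff, mem_inter, mem_inter, mem_sdiff] at hv
    tauto
  have h5 : ((Y ∩ N) \ ((Y \ C) ∩ N)).card = 6 - ((Y \ C) ∩ N).card := by
    rw [card_sdiff_of_subset (by
      intro v hv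
      rw [mem_inter, mem_sdiff] at hv
      rw [mem_inter]
      tauto), h6]
  have hCe : (Y ∩ N) \ ((Y \ C) ∩ N) = C := eq_of_subset_of_card_le h4 (by omega)
  have hCs : C ⊆ Y ∩ N := by
    rw [← hCe]; exact sdiff_subset
  have hC4 : C.card = 4 := by omega
  refine tree6 hM h6 hCs hC4 (fun v hv => (hN v).1 (mem_inter.1 hv).2) (fun v hv hvC w hw => ?_)
  have hwN := (hN w).2 (nbr_nis hw)
  rw [mem_inter]
  refine ⟨?_, hwN⟩
  by_contra hwY
  rw [mem_nbr] at hw
  obtain ⟨_, e, he⟩ := hw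
  have hvY := (mem_inter.1 hv).1
  have hwC : w ∉ C := fun h => hwY (mem_inter.1 (hCs h)).1
  rcases he with ⟨e1, e2⟩ | ⟨e1, e2⟩
  · have := h e
    rw [e1, e2] at this
    tauto
  · have := h e
    rw [e1, e2] at this
    tauto

theorem labels_mem : ∀ T : LeafTree V, ((T.labels : Finset V) : Set V) ∈ T.sets := by
  intro T
  cases T with
  | leaf v =>
    change ((({v} : Finset V)) : Set V) ∈ ({{v}} : Set (Set V))
    rw [coe_singleton]
    exact rfl
  | node l r => exact Or.inl rfl

theorem bal3 (S : Finset V) (a : ℕ) (ha : 2 ≤ a) (T : LeafTree V) : a ≤ (T.labels ∩ S).card →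
    ∃ l r : LeafTree V, (((l.labels ∪ r.labels : Finset V) : Set V) ∈ T.sets) ∧
      ((l.labels : Finset V) : Set V) ∈ T.sets ∧ ((r.labels : Finset V) : Set V) ∈ T.sets ∧
      a ≤ ((l.labels ∪ r.labels) ∩ S).card ∧ (l.labels ∩ S).card < a ∧
      (r.labels ∩ S).card < a := by
  induction T with
  | leaf v =>
    intro h
    have h1 : (({v} : Finset V) ∩ S).card ≤ 1 :=
      (card_le_card inter_subset_left).trans (le_of_eq (card_singleton v))
    have h2 : (LeafTree.leaf v).labels = ({v} : Finset V) := rfl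
    rw [h2] at h
    omega
  | node l r ihl ihr =>
    intro h
    by_cases hl : a ≤ (l.labels ∩ S).card
    · obtain ⟨l', r', h1, h2, h3, h4⟩ := ihl hl
      exact ⟨l', r', Or.inr (Or.inl h1), Or.inr (Or.inl h2), Or.inr (Or.inl h3), h4⟩
    by_cases hr : a ≤ (r.labels ∩ S).card
    · obtain ⟨l', r', h1, h2, h3, h4⟩ := ihr hr
      exact ⟨l', r', Or.inr (Or.inr h1), Or.inr (Or.inr h2), Or.inr (Or.inr h3), h4⟩
    exact ⟨l, r, Or.inl rfl, Or.inr (Or.inl (labels_mem l)), Or.inr (Or.inr (labels_mem r)), h,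
      by omega, by omega⟩

open Classical in
/-- **Main step.** -/
theorem mm_false {src dst : E → V} (hM : MinCx src dst) (hP : ¬ PetMinor src dst)
    (T : LeafTree V) (hT : T.labels = univ) (hcv : ∀ Y ∈ T.sets, Cv src dst Y) : False := by
  set N : Finset V := univ.filter (fun v => Nis src dst v) with hNdef
  have hN : ∀ v, v ∈ N ↔ Nis src dst v := by
    intro v; rw [hNdef, mem_filter]; simp
  have h18 : 18 ≤ N.card := many hM hP
  -- all vertices have at least three neighbours
  have h3 : ∀ v, Nis src dst v → 3 ≤ (nbr src dst v).card := by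
    intro v hv
    obtain ⟨y, hy, hyv⟩ := exists_mem_ne (show 1 < N.card by omega) v
    exact nbr_three hM hv ((hN y).1 hy) hyv
  obtain ⟨l, r, f1, f2, f3, f4, f5, f6⟩ := bal3 N 7 (by norm_num) T (by
    rw [hT, univ_inter]; omega)
  have split : ∀ Y : Finset V, ((Y : Finset V) : Set V) ∈ T.sets → ∃ C : Finset V, C.card ≤ 4 ∧
      (∀ e, ¬ (src e ∈ Y ↔ dst e ∈ Y) → src e ∈ C ∨ dst e ∈ C) := by
    intro Y hY
    obtain ⟨C, c1, c2⟩ := hcv _ hY
    exact ⟨C, c1, fun e he => c2 e (by simpa using he)⟩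
  have size : ∀ (Y C : Finset V), C.card ≤ 4 → ((Y \ C) ∩ N).card ≤ 2 → (Y ∩ N).card ≤ 6 := by
    intro Y C hC h2
    have h1 : Y ∩ N ⊆ ((Y \ C) ∩ N) ∪ C := by
      intro v hv
      rw [mem_inter] at hv
      rw [mem_union, mem_inter, mem_sdiff]
      tauto
    have := card_le_card h1
    have := card_union_le ((Y \ C) ∩ N) C
    omega
  have comp : ∀ Y : Finset V, (Y ∩ N).card + (Yᶜ ∩ N).card = N.card := by
    intro Y
    rw [← card_union_of_disjoint]
    · congr 1
      ext v
      rw [mem_union, mem_inter, mem_inter, mem_compl]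
      tauto
    · rw [disjoint_left]
      intro v hv hv'
      rw [mem_inter] at hv hv'
      exact (mem_compl.1 hv'.1) hv.1
  -- the whole
  obtain ⟨C, c1, c2⟩ := split _ f1
  set Y := l.labels ∪ r.labels with hY
  have hYc : ((Yᶜ \ C) ∩ N).card ≤ 2 := by
    rcases side_small hM N hN Y c1 c2 with h | h
    · have := size Y C c1 h
      omega
    · exact h
  have g1 := size Yᶜ C c1 hYc
  have g2 := comp Y
  have g3 : Y ∩ N = (l.labels ∩ N) ∪ (r.labels ∩ N) := by
    rw [hY, union_inter_distrib_right]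
  have g4 := card_union_add_card_inter (l.labels ∩ N) (r.labels ∩ N)
  rw [← g3] at g4
  have g5 : (Y ∩ N).card = 12 := by omega
  have g6 : (l.labels ∩ N).card = 6 := by omega
  have g7 : (r.labels ∩ N).card = 6 := by omega
  have g8 : (Yᶜ ∩ N).card = 6 := by omega
  have g9 : N.card = 18 := by omega
  have g10 : ((l.labels ∩ N) ∩ (r.labels ∩ N)).card = 0 := by omega
  have hdlr : Disjoint (l.labels ∩ N) (r.labels ∩ N) := by
    rw [disjoint_iff_inter_eq_empty]
    exact card_eq_zero.1 g10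
  -- all degrees are odd
  have hodd : ∀ v, Nis src dst v → Odd (nbr src dst v).card := by
    intro v hv
    have k1 : Pool.Agent.TH362.TF.odd src dst univ ⊆ N := by
      intro v hv
      rw [Pool.Agent.TH362.TF.odd, mem_filter] at hv
      rw [hN]
      by_contra hno
      have h3 : ∀ e, src e = dst e ∨ (src e ≠ v ∧ dst e ≠ v) := by
        intro e
        by_contra h4
        push Not at h4
        refine hno ⟨e, h4.1, ?_⟩
        by_cases h5 : src e = v
        · exact Or.inl h5
        · exact Or.inr (h4.2 h5)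
      have h4 : Even (Pool.Agent.TH362.TF.deg src dst univ v) := by
        unfold Pool.Agent.TH362.TF.deg
        refine Finset.even_sum _ fun e _ => ?_
        rcases h3 e with h5 | ⟨h5, h6⟩
        · rw [h5]
          exact Even.add_self _
        · rw [if_neg h5, if_neg h6]
          exact Even.add_self _
      exact (Nat.not_even_iff_odd.mpr hv.2) h4
    have k2 : Pool.Agent.TH362.TF.odd src dst univ = N :=
      eq_of_subset_of_card_le k1 (by rw [g9]; exact odd18 hM hP)
    have k3 := Pool.Agent.TH362.TF.parity src dst univ (fun w => decide (w = v))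
    rw [k2] at k3
    have k4 : N.filter (fun w => (decide (w = v)) = true) = {v} := by
      ext w
      rw [mem_filter, decide_eq_true_iff, mem_singleton]
      exact ⟨fun h => h.2, fun h => ⟨by rw [h, hN]; exact hv, h⟩⟩
    have k5 : Pool.Agent.TH362.TF.cut src dst univ (fun w => decide (w = v)) = crs src dst {v} := by
      ext e
      rw [mem_crs, Pool.Agent.TH362.TF.cut, mem_filter, mem_singleton, mem_singleton]
      simp
    rw [k4, k5, card_singleton, ← nbr_card hM] at k3
    rw [Nat.odd_iff]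
    omega
  -- the three trees
  refine no_three hM ![l.labels ∩ N, r.labels ∩ N, Yᶜ ∩ N] ?_ ?_ hodd h3 ?_
  · have d1 : Disjoint (l.labels ∩ N) (Yᶜ ∩ N) := by
      rw [disjoint_left]
      intro v hv hv'
      rw [mem_inter] at hv hv'
      exact (mem_compl.1 hv'.1) (mem_union_left _ hv.1)
    have d2 : Disjoint (r.labels ∩ N) (Yᶜ ∩ N) := by
      rw [disjoint_left]
      intro v hv hv'
      rw [mem_inter] at hv hv'
      exact (mem_compl.1 hv'.1) (mem_union_right _ hv.1)
    intro i j hij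
    fin_cases i <;> fin_cases j
    · exact absurd rfl hij
    · exact hdlr
    · exact d1
    · exact hdlr.symm
    · exact absurd rfl hij
    · exact d2
    · exact d1.symm
    · exact d2.symm
    · exact absurd rfl hij
  · intro v hv
    have hvN := (hN v).2 hv
    by_cases h1 : v ∈ l.labels
    · exact ⟨0, mem_inter.2 ⟨h1, hvN⟩⟩
    · by_cases h2 : v ∈ r.labels
      · exact ⟨1, mem_inter.2 ⟨h2, hvN⟩⟩
      · refine ⟨2, mem_inter.2 ⟨mem_compl.2 fun h => ?_, hvN⟩⟩
        rw [hY, mem_union] at h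
        tauto
  · have one : ∀ Z : Finset V, ((Z : Finset V) : Set V) ∈ T.sets → (Z ∩ N).card = 6 →
        ∃ x l, TS src dst (Z ∩ N) x l := by
      intro Z hZ h6
      obtain ⟨C, c1, c2⟩ := split _ hZ
      refine side_tree hM N hN Z c1 c2 h6 ?_
      rcases side_small hM N hN Z c1 c2 with h | h
      · exact h
      · have e1 := size Zᶜ C c1 h
        have e2 := comp Z
        omega
    intro i
    fin_cases i
    · exact one _ f2 g6
    · exact one _ f3 g7
    · refine side_tree hM N hN Yᶜ c1 (fun e he => c2 e ?_) g8 hYc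
      rw [mem_compl, mem_compl] at he
      tauto

/-- **Maximum matching width four.** -/
theorem mm4 {src dst : E → V} (T : LeafTree V) (hT : T.labels = univ)
    (hcv : ∀ Y ∈ T.sets, Cv src dst Y) (hP : ¬ PetMinor src dst)
    (hbr : Br src dst ∅ ∅) : FlowOn src dst ∅ ∅ := by
  by_contra hf
  obtain ⟨s, d, ⟨h1, h2⟩, hM⟩ :=
    exists_minCx (MC.and (mc_cv (V := V) (E := E) T.sets) mc_noPet) src dst ⟨hcv, hP⟩ hbr hf
  exact mm_false hM h2 T hT h1

end Pool.T9h45.MM
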