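import Pool.Agent.T9h45.MM.Data

set_option autoImplicit false

/-! # The search -/

namespace Pool.T9h45.MM

abbrev Ds := List (Nat × Nat)

def tb (m n : Nat) : Bool := Nat.beq (Nat.land (Nat.shiftRight m n) 1) 1

/-- at most one bit -/
def one (x : Nat) : Bool := Nat.beq (Nat.land x (Nat.sub x 1)) 0

noncomputable def okc (m : Nat) (ds : Ds) : Bool :=
  List.rec (motive := fun _ => Bool) true
    (fun p _ ih => and (cond (tb m p.1) (Nat.beq (Nat.land m p.2) 0) (one (Nat.land m p.2))) ih) ds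

noncomputable def dmask (ds : Ds) : Nat :=
  List.rec (motive := fun _ => Nat) 0 (fun p _ ih => Nat.lor (Nat.shiftLeft 1 p.1) ih) ds

noncomputable def touched (ds : Ds) : Nat :=
  List.rec (motive := fun _ => Nat) 0 (fun p _ ih => Nat.lor p.2 ih) ds

noncomputable def req (i : Nat) (ds : Ds) : Nat :=
  List.rec (motive := fun _ => Nat) 0
    (fun p _ ih => Nat.lor (cond (tb p.2 i) (Nat.shiftLeft 1 p.1) 0) ih) ds

noncomputable def nxt (ds : Ds) : Nat :=
  Nat.log2 (cond (Nat.beq (Nat.land (touched ds) (Nat.xor 4095 (dmask ds))) 0)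
    (Nat.xor 4095 (dmask ds)) (Nat.land (touched ds) (Nat.xor 4095 (dmask ds))))

noncomputable def sel (i : Nat) (T : List (Nat × List Nat)) : Option (Nat × List Nat) :=
  List.rec (motive := fun _ => Option (Nat × List Nat)) none
    (fun p _ ih => cond (Nat.beq p.1 i) (some p) ih) T

noncomputable def row (i : Nat) (ds : Ds) : Nat :=
  List.rec (motive := fun _ => Nat) 0 (fun p _ ih => cond (Nat.beq p.1 i) p.2 ih) ds

noncomputable def orr (S : Nat) (ds : Ds) : Nat :=
  List.rec (motive := fun _ => Nat) 0 (fun p _ ih => Nat.lor (cond (tb S p.1) p.2 0) ih) ds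

noncomputable def badS (S : Nat) (ds : Ds) : Bool :=
  Nat.beq (Nat.land (orr S ds) (Nat.xor 4095 S)) 0

noncomputable def bad (ds : Ds) : Bool :=
  or (badS 819 ds) (or (badS 3123 ds) (or (badS 963 ds) (badS 3267 ds)))

def all12 (f : Nat → Bool) : Bool :=
  f 0 && (f 1 && (f 2 && (f 3 && (f 4 && (f 5 && (f 6 && (f 7 && (f 8 && (f 9 && (f 10 &&
    f 11))))))))))

def xor12 (f : Nat → Bool) : Bool :=
  f 0 ^^ (f 1 ^^ (f 2 ^^ (f 3 ^^ (f 4 ^^ (f 5 ^^ (f 6 ^^ (f 7 ^^ (f 8 ^^ (f 9 ^^ (f 10 ^^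
    f 11))))))))))

def idx (a b : Nat) : Nat :=
  Nat.add (Nat.mul 16 (Nat.sub (Nat.add (Nat.div a 4) (Nat.div b 4)) 1))
    (cond (Nat.ble a b) (Nat.add (Nat.mul 4 (Nat.mod a 4)) (Nat.mod b 4))
      (Nat.add (Nat.mul 4 (Nat.mod b 4)) (Nat.mod a 4)))

noncomputable def dd (ds : Ds) (c s a : Nat) : Bool :=
  xor12 (fun b => and (tb (row a ds) b) (tb c (Nat.add s (idx a b))))

noncomputable def chk (ds : Ds) (c : Nat) : Bool :=
  all12 (fun a => (dd ds c 0 a || dd ds c 48 a) &&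
    all12 (fun b => !(tb (row a ds) b) || (tb c (idx a b) || tb c (48 + idx a b)))) &&
  ((((dd ds c 0 0 ^^ dd ds c 0 1) || (dd ds c 48 0 ^^ dd ds c 48 1)) &&
  (((dd ds c 0 4 ^^ dd ds c 0 5) || (dd ds c 48 4 ^^ dd ds c 48 5)) &&
  ((dd ds c 0 8 ^^ dd ds c 0 9) || (dd ds c 48 8 ^^ dd ds c 48 9)))) &&
  (((((dd ds c 0 0 ^^ dd ds c 0 1) == (dd ds c 0 2 ^^ dd ds c 0 3)) &&
    ((dd ds c 48 0 ^^ dd ds c 48 1) == (dd ds c 48 2 ^^ dd ds c 48 3))) &&
   (((dd ds c 0 4 ^^ dd ds c 0 5) == (dd ds c 0 6 ^^ dd ds c 0 7)) &&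
    ((dd ds c 48 4 ^^ dd ds c 48 5) == (dd ds c 48 6 ^^ dd ds c 48 7)))) &&
   (((dd ds c 0 8 ^^ dd ds c 0 9) == (dd ds c 0 10 ^^ dd ds c 0 11)) &&
    ((dd ds c 48 8 ^^ dd ds c 48 9) == (dd ds c 48 10 ^^ dd ds c 48 11)))))

noncomputable def lp (f : Nat → List Nat → Option (List Nat)) (g : Nat → Bool) (ms : List Nat) :
    List Nat → Option (List Nat) :=
  List.rec (motive := fun _ => List Nat → Option (List Nat)) some
    (fun m _ ih cs => cond (g m)
      (Option.rec (motive := fun _ => Option (List Nat)) none ih (f m cs)) (ih cs)) ms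

noncomputable def leaf (ds : Ds) (cs : List Nat) : Option (List Nat) :=
  cond (Nat.beq (dmask ds) 4095)
    (cond (bad ds) (some cs)
      (List.rec (motive := fun _ => Option (List Nat)) none
        (fun c cs' _ => cond (chk ds c) (some cs') none) cs)) none

noncomputable def go (T : List (Nat × List Nat)) (k : Nat) : Ds → List Nat → Option (List Nat) :=
  Nat.rec (motive := fun _ => Ds → List Nat → Option (List Nat)) leaf
    (fun _ ih ds cs =>
      Option.rec (motive := fun _ => Option (List Nat)) none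
        (fun p => Prod.rec (motive := fun _ => Option (List Nat))
          (fun i cl => cond (tb (dmask ds) i) none (lp (fun m cs => ih ((i, m) :: ds) cs)
            (fun m => and (Nat.beq (Nat.land m (dmask ds)) (req i ds)) (okc m ds)) cl cs)) p)
        (sel (nxt ds) T)) k

end Pool.T9h45.MM
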