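import Mathlib
import Pool.Agent.T9h45.MM.Dfs

set_option autoImplicit false

/-! # Soundness of the search -/

namespace Pool.T9h45.MM

theorem tb_eq (m n : Nat) : tb m n = m.testBit n := by
  have h : ∀ x : Nat, Nat.beq (x &&& 1) 1 = (1 &&& x != 0) := by
    intro x
    rw [Nat.and_comm 1 x, Nat.and_one_is_mod]
    rcases Nat.mod_two_eq_zero_or_one x with h | h <;> rw [h] <;> rfl
  exact h (m >>> n)

theorem beq_iff (a b : Nat) : Nat.beq a b = true ↔ a = b := by
  constructor
  · intro h; exact Nat.eq_of_beq_eq_true h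
  · rintro rfl; exact Nat.beq_refl _

theorem land_shift (x j : Nat) :
    Nat.land x (Nat.shiftLeft 1 j) = cond (tb x j) (Nat.shiftLeft 1 j) 0 := by
  change x &&& (1 <<< j) = _
  rw [tb_eq]
  apply Nat.eq_of_testBit_eq
  intro k
  rw [Nat.testBit_and]
  cases h : x.testBit j
  · rw [cond_false, Nat.zero_testBit]
    by_cases hk : k = j
    · rw [hk, h]; rfl
    · rw [Nat.one_shiftLeft, Nat.testBit_two_pow]
      simp [Ne.symm hk]
  · rw [cond_true]
    change (x.testBit k && (1 <<< j).testBit k) = (1 <<< j).testBit k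
    rw [Nat.one_shiftLeft, Nat.testBit_two_pow]
    by_cases hk : j = k
    · rw [← hk, h]; simp
    · simp [hk]

theorem tb_lor (x y k : Nat) : tb (Nat.lor x y) k = (tb x k || tb y k) := by
  rw [tb_eq, tb_eq, tb_eq]
  exact Nat.testBit_or x y k

theorem tb_shift (j k : Nat) : tb (Nat.shiftLeft 1 j) k = decide (j = k) := by
  rw [tb_eq]
  change (1 <<< j).testBit k = _
  rw [Nat.one_shiftLeft, Nat.testBit_two_pow]

/-- the entries of the list are rows -/
def Agree (R : Nat → Nat) (ds : Ds) : Prop := ∀ p ∈ ds, p.1 < 12 ∧ p.2 = R p.1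

/-- the rows fit together -/
def Cons (R : Nat → Nat) : Prop := ∀ i j, i < 12 → j < 12 → i ≠ j →
  tb (R i) j = tb (R j) i ∧
  cond (tb (R i) j) (Nat.beq (Nat.land (R i) (R j)) 0) (one (Nat.land (R i) (R j))) = true

theorem dmask_cons (p : Nat × Nat) (ds : Ds) :
    dmask (p :: ds) = Nat.lor (Nat.shiftLeft 1 p.1) (dmask ds) := rfl

theorem dmask_iff (ds : Ds) (i : Nat) : tb (dmask ds) i = true ↔ ∃ p ∈ ds, p.1 = i := by
  induction ds with
  | nil =>
    constructor
    · intro h
      change tb 0 i = true at h
      rw [tb_eq, Nat.zero_testBit] at h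
      exact absurd h (by simp)
    · rintro ⟨p, hp, _⟩
      exact absurd hp (by simp)
  | cons p ds ih =>
    rw [dmask_cons, tb_lor, Bool.or_eq_true, ih, tb_shift]
    constructor
    · rintro (h | ⟨q, hq, h⟩)
      · exact ⟨p, by simp, by simpa using h⟩
      · exact ⟨q, List.mem_cons_of_mem _ hq, h⟩
    · rintro ⟨q, hq, h⟩
      rcases List.mem_cons.1 hq with rfl | hq
      · exact Or.inl (by simpa using h)
      · exact Or.inr ⟨q, hq, h⟩

theorem row_eq {R : Nat → Nat} {ds : Ds} (hA : Agree R ds) {i : Nat}
    (h : tb (dmask ds) i = true) : row i ds = R i := by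
  induction ds with
  | nil => rw [dmask_iff] at h; obtain ⟨p, hp, _⟩ := h; exact absurd hp (by simp)
  | cons p ds ih =>
    change cond (Nat.beq p.1 i) p.2 (row i ds) = R i
    by_cases hp : p.1 = i
    · rw [(beq_iff _ _).2 hp, cond_true, (hA p (by simp)).2, hp]
    · have h1 : Nat.beq p.1 i = false := by
        rw [← Bool.not_eq_true, beq_iff]; exact hp
      rw [h1, cond_false]
      refine ih (fun q hq => hA q (List.mem_cons_of_mem _ hq)) ?_
      rw [dmask_iff] at h ⊢
      obtain ⟨q, hq, hqi⟩ := h
      rcases List.mem_cons.1 hq with rfl | hq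
      · exact absurd hqi hp
      · exact ⟨q, hq, hqi⟩

theorem req_eq {R : Nat → Nat} (hc : Cons R) {ds : Ds} (hA : Agree R ds) {i : Nat} (hi : i < 12)
    (hn : ∀ p ∈ ds, p.1 ≠ i) : Nat.land (R i) (dmask ds) = req i ds := by
  induction ds with
  | nil => exact Nat.and_zero (R i)
  | cons p ds ih =>
    have h1 := ih (fun q hq => hA q (List.mem_cons_of_mem _ hq))
      (fun q hq => hn q (List.mem_cons_of_mem _ hq))
    have h2 := hA p (by simp)
    have h3 : req i (p :: ds) = Nat.lor (cond (tb p.2 i) (Nat.shiftLeft 1 p.1) 0) (req i ds) := rfl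
    rw [h3, dmask_cons, ← h1]
    have h4 : Nat.land (R i) (Nat.lor (Nat.shiftLeft 1 p.1) (dmask ds)) =
        Nat.lor (Nat.land (R i) (Nat.shiftLeft 1 p.1)) (Nat.land (R i) (dmask ds)) :=
      Nat.and_or_distrib_left _ _ _
    rw [h4, land_shift, h2.2, (hc i p.1 hi h2.1 (hn p (by simp)).symm).1]

theorem okc_true {R : Nat → Nat} (hc : Cons R) {ds : Ds} (hA : Agree R ds) {i : Nat} (hi : i < 12)
    (hn : ∀ p ∈ ds, p.1 ≠ i) : okc (R i) ds = true := by
  induction ds with
  | nil => rfl
  | cons p ds ih =>
    have h1 := ih (fun q hq => hA q (List.mem_cons_of_mem _ hq))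
      (fun q hq => hn q (List.mem_cons_of_mem _ hq))
    have h2 := hA p (by simp)
    change and (cond (tb (R i) p.1) (Nat.beq (Nat.land (R i) p.2) 0)
      (one (Nat.land (R i) p.2))) (okc (R i) ds) = true
    rw [h1, h2.2, (hc i p.1 hi h2.1 (hn p (by simp)).symm).2]
    rfl

/-- what the search shows -/
def Concl (R : Nat → Nat) : Prop :=
  ∃ ds : Ds, Agree R ds ∧ (∀ i < 12, tb (dmask ds) i = true) ∧
    (bad ds = true ∨ ∃ c, chk ds c = true)

theorem leaf_sound {R : Nat → Nat} {ds : Ds} (hA : Agree R ds) {cs : List Nat}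
    (h : leaf ds cs ≠ none) : Concl R := by
  unfold leaf at h
  cases h1 : Nat.beq (dmask ds) 4095
  · rw [h1, cond_false] at h
    exact absurd rfl h
  · rw [h1, cond_true] at h
    have h2 : dmask ds = 4095 := (beq_iff _ _).1 h1
    have h3 : ∀ i < 12, tb (dmask ds) i = true := by
      rw [h2]; decide
    cases h4 : bad ds
    · rw [h4, cond_false] at h
      cases cs with
      | nil => exact absurd rfl h
      | cons c cs =>
        cases h5 : chk ds c
        · change cond (chk ds c) (some cs) none ≠ none at h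
          rw [h5] at h
          exact absurd rfl h
        · exact ⟨ds, hA, h3, Or.inr ⟨c, h5⟩⟩
    · exact ⟨ds, hA, h3, Or.inl h4⟩

theorem lp_sound {f : Nat → List Nat → Option (List Nat)} {g : Nat → Bool} {m : Nat}
    (hg : g m = true) : ∀ {ms cs : List Nat}, lp f g ms cs ≠ none → m ∈ ms →
    ∃ cs', f m cs' ≠ none := by
  intro ms
  induction ms with
  | nil => intro cs _ hm; exact absurd hm (by simp)
  | cons a ms ih =>
    intro cs h hm
    change cond (g a) (Option.rec (motive := fun _ => Option (List Nat)) none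
      (fun cs' => lp f g ms cs') (f a cs)) (lp f g ms cs) ≠ none at h
    by_cases ha : m = a
    · subst ha
      rw [hg, cond_true] at h
      refine ⟨cs, fun h1 => ?_⟩
      rw [h1] at h
      exact h rfl
    · have hm' : m ∈ ms := by
        rcases List.mem_cons.1 hm with h1 | h1
        · exact absurd h1 ha
        · exact h1
      cases h1 : g a
      · rw [h1, cond_false] at h
        exact ih h hm'
      · rw [h1, cond_true] at h
        cases h2 : f a cs with
        | none => rw [h2] at h; exact absurd rfl h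
        | some cs' =>
          rw [h2] at h
          exact ih h hm'

theorem sel_mem {i : Nat} {T : List (Nat × List Nat)} {p : Nat × List Nat}
    (h : sel i T = some p) : p ∈ T := by
  induction T with
  | nil => exact absurd h (by simp [sel])
  | cons q T ih =>
    change cond (Nat.beq q.1 i) (some q) (sel i T) = some p at h
    cases h1 : Nat.beq q.1 i
    · rw [h1, cond_false] at h
      exact List.mem_cons_of_mem _ (ih h)
    · rw [h1, cond_true] at h
      rw [Option.some.inj h]
      exact List.mem_cons_self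

theorem go_sound {T : List (Nat × List Nat)} {R : Nat → Nat}
    (hT : ∀ p ∈ T, p.1 < 12 ∧ R p.1 ∈ p.2) (hc : Cons R) :
    ∀ {k : Nat} {ds : Ds} {cs : List Nat}, Agree R ds → go T k ds cs ≠ none → Concl R := by
  intro k
  induction k with
  | zero => intro ds cs hA h; exact leaf_sound hA h
  | succ k ih =>
    intro ds cs hA h
    change Option.rec (motive := fun _ => Option (List Nat)) none
        (fun p => Prod.rec (motive := fun _ => Option (List Nat))
          (fun i cl => cond (tb (dmask ds) i) none (lp (fun m cs => go T k ((i, m) :: ds) cs)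
            (fun m => and (Nat.beq (Nat.land m (dmask ds)) (req i ds)) (okc m ds)) cl cs)) p)
        (sel (nxt ds) T) ≠ none at h
    cases h1 : sel (nxt ds) T with
    | none => rw [h1] at h; exact absurd rfl h
    | some p =>
      obtain ⟨i, cl⟩ := p
      rw [h1] at h
      obtain ⟨hi, hR⟩ := hT _ (sel_mem h1)
      change cond (tb (dmask ds) i) none (lp (fun m cs => go T k ((i, m) :: ds) cs)
            (fun m => and (Nat.beq (Nat.land m (dmask ds)) (req i ds)) (okc m ds)) cl cs) ≠ none at h
      cases h2 : tb (dmask ds) i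
      · rw [h2, cond_false] at h
        have hn : ∀ p ∈ ds, p.1 ≠ i := by
          intro p hp hpi
          have := (dmask_iff ds i).2 ⟨p, hp, hpi⟩
          rw [h2] at this
          exact absurd this (by simp)
        obtain ⟨cs', h3⟩ := lp_sound (m := R i) (by
          rw [(beq_iff _ _).2 (req_eq hc hA hi hn), okc_true hc hA hi hn]
          rfl) h hR
        refine ih (fun q hq => ?_) h3
        rcases List.mem_cons.1 hq with rfl | hq
        · exact ⟨hi, rfl⟩
        · exact hA q hq
      · rw [h2, cond_true] at h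
        exact absurd rfl h

end Pool.T9h45.MM
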