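import Mathlib
import Pool.Agent.T9h45.MM.Sound

set_option autoImplicit false

/-! # From the search to colourings -/

namespace Pool.T9h45.MM

open Finset

abbrev K4 := ZMod 2 × ZMod 2

/-- the leaves `0, …, 11`; the leaves `a` with the same `a / 2` are at the same centre, the leaves
with the same `a / 4` are in the same tree -/
structure Good (r : Fin 12 → Fin 12 → Bool) : Prop where
  symm : ∀ a b, r a b = r b a
  tree : ∀ a b, a.val / 4 = b.val / 4 → r a b = false
  unit : ∀ a b c, b ≠ c → b.val / 2 = c.val / 2 → r a b = true → r a c = false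
  tri : ∀ a b c, r a b = true → r b c = true → r a c = false
  quad : ∀ a b c d, a ≠ c → b ≠ d → r a b = true → r b c = true → r c d = true → r a d = false
  deg : ∀ a, Even (univ.filter (fun b => r a b = true)).card ∧
    2 ≤ (univ.filter (fun b => r a b = true)).card
  cut : ∀ s : Fin 12 → Bool, (∀ a b : Fin 12, a.val / 2 = b.val / 2 → s a = s b) →
    (∀ a b : Fin 12, a.val / 4 = b.val / 4 → a.val / 2 ≠ b.val / 2 → s a ≠ s b) →
    ∃ a b, s a = true ∧ s b = false ∧ r a b = true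

/-- a colouring of the edges -/
def Col (r : Fin 12 → Fin 12 → Bool) : Prop :=
  ∃ (c : Fin 12 → Fin 12 → K4) (d : Fin 12 → K4), (∀ a b, c a b = c b a) ∧
    (∀ a b, r a b = true → c a b ≠ 0) ∧ (∀ a b, r a b = false → c a b = 0) ∧
    (∀ a, ∑ b, c a b = d a) ∧ (∀ a, d a ≠ 0) ∧
    (∀ a b : Fin 12, a ≠ b → a.val / 2 = b.val / 2 → d a ≠ d b) ∧
    ∀ a a' b b' : Fin 12, a ≠ a' → b ≠ b' → a.val / 2 = a'.val / 2 → b.val / 2 = b'.val / 2 →
      a.val / 4 = b.val / 4 → d a + d a' = d b + d b'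

/-- the row of `i` as a number -/
def msk (f : Fin 12 → Bool) : Nat := Nat.ofBits f

theorem msk_lt (f : Fin 12 → Bool) : msk f < 4096 := Nat.ofBits_lt_two_pow f

theorem tb_msk (f : Fin 12 → Bool) (i : Nat) (h : i < 12) : tb (msk f) i = f ⟨i, h⟩ := by
  rw [tb_eq]; exact Nat.testBit_ofBits_lt f i h

theorem tb_msk' (f : Fin 12 → Bool) (i : Fin 12) : tb (msk f) i = f i := tb_msk f i i.2

theorem tb_msk_ge (f : Fin 12 → Bool) (i : Nat) (h : 12 ≤ i) : tb (msk f) i = false := by
  rw [tb_eq]; exact Nat.testBit_ofBits_ge f i h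

/-- the rows -/
def Rw (r : Fin 12 → Fin 12 → Bool) (i : Nat) : Nat := if h : i < 12 then msk (r ⟨i, h⟩) else 0

theorem Rw_eq (r : Fin 12 → Fin 12 → Bool) (i : Fin 12) : Rw r i = msk (r i) := by
  unfold Rw; rw [dif_pos i.2]

theorem Rw_eq' (r : Fin 12 → Fin 12 → Bool) (i : Nat) (h : i < 12) : Rw r i = msk (r ⟨i, h⟩) := by
  unfold Rw; rw [dif_pos h]

theorem one_two_pow : ∀ k < 12, one (2 ^ k) = true := by decide

theorem eq_of_bits {x y : Nat} (h : ∀ k, tb x k = tb y k) : x = y := by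
  apply Nat.eq_of_testBit_eq
  intro k
  rw [← tb_eq, ← tb_eq]
  exact h k

theorem tb_land (x y k : Nat) : tb (Nat.land x y) k = (tb x k && tb y k) := by
  rw [tb_eq, tb_eq, tb_eq]
  exact Nat.testBit_and x y k

theorem Good.cons {r : Fin 12 → Fin 12 → Bool} (h : Good r) : Cons (Rw r) := by
  intro i j hi hj hij
  rw [Rw_eq' r i hi, Rw_eq' r j hj, tb_msk _ j hj, tb_msk _ i hi]
  refine ⟨h.symm _ _, ?_⟩
  have hne : (⟨i, hi⟩ : Fin 12) ≠ ⟨j, hj⟩ := fun h => hij (congrArg Fin.val h)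
  cases h1 : r ⟨i, hi⟩ ⟨j, hj⟩
  · rw [cond_false]
    by_cases h2 : ∃ k : Fin 12, r ⟨i, hi⟩ k = true ∧ r ⟨j, hj⟩ k = true
    · obtain ⟨k, h3, h4⟩ := h2
      have h5 : Nat.land (msk (r ⟨i, hi⟩)) (msk (r ⟨j, hj⟩)) = 2 ^ k.val := by
        apply eq_of_bits
        intro l
        rw [tb_land, tb_eq (2 ^ k.val), Nat.testBit_two_pow]
        by_cases hl : l < 12
        · rw [tb_msk _ l hl, tb_msk _ l hl]
          by_cases hkl : k.val = l
          · have : (⟨l, hl⟩ : Fin 12) = k := Fin.ext hkl.symm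
            rw [this, h3, h4]
            simp [hkl]
          · have hkl' : k ≠ ⟨l, hl⟩ := fun h => hkl (congrArg Fin.val h)
            rw [show decide (k.val = l) = false by simp [hkl]]
            by_contra h6
            rw [Bool.not_eq_false, Bool.and_eq_true] at h6
            have h7 := h.quad ⟨i, hi⟩ k ⟨j, hj⟩ ⟨l, hl⟩ hne hkl' h3 (by rw [h.symm]; exact h4) h6.2
            rw [h6.1] at h7
            exact absurd h7 (by simp)
        · rw [tb_msk_ge _ l (by omega)]
          have : k.val ≠ l := by have := k.2; omega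
          simp [this]
      rw [h5]
      exact one_two_pow _ k.2
    · have h5 : Nat.land (msk (r ⟨i, hi⟩)) (msk (r ⟨j, hj⟩)) = 0 := by
        apply eq_of_bits
        intro l
        rw [tb_land, tb_eq 0, Nat.zero_testBit]
        by_cases hl : l < 12
        · rw [tb_msk _ l hl, tb_msk _ l hl]
          by_contra h6
          rw [Bool.not_eq_false, Bool.and_eq_true] at h6
          exact h2 ⟨_, h6⟩
        · rw [tb_msk_ge _ l (by omega)]
          rfl
      rw [h5]
      rfl
  · rw [cond_true, beq_iff]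
    apply eq_of_bits
    intro l
    rw [tb_land, tb_eq 0, Nat.zero_testBit]
    by_cases hl : l < 12
    · rw [tb_msk _ l hl, tb_msk _ l hl]
      by_contra h6
      rw [Bool.not_eq_false, Bool.and_eq_true] at h6
      have h7 := h.tri _ _ _ h1 h6.2
      rw [h6.1] at h7
      exact absurd h7 (by simp)
    · rw [tb_msk_ge _ l (by omega)]
      rfl

/-! ## the possible rows -/

def cnt (m : Nat) : Nat :=
  (cond (tb m 0) 1 0) + ((cond (tb m 1) 1 0) + ((cond (tb m 2) 1 0) + ((cond (tb m 3) 1 0) +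
  ((cond (tb m 4) 1 0) + ((cond (tb m 5) 1 0) + ((cond (tb m 6) 1 0) + ((cond (tb m 7) 1 0) +
  ((cond (tb m 8) 1 0) + ((cond (tb m 9) 1 0) + ((cond (tb m 10) 1 0) +
    (cond (tb m 11) 1 0)))))))))))

theorem cnt_msk (f : Fin 12 → Bool) : cnt (msk f) = (univ.filter (fun b => f b = true)).card := by
  rw [card_filter]
  have h : ∀ b : Bool, cond b 1 0 = if b = true then 1 else 0 := by decide
  simp only [Fin.sum_univ_succ, Fin.sum_univ_zero, add_zero]
  unfold cnt
  simp only [← h]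
  rw [tb_msk f 0 (by norm_num), tb_msk f 1 (by norm_num), tb_msk f 2 (by norm_num),
    tb_msk f 3 (by norm_num), tb_msk f 4 (by norm_num), tb_msk f 5 (by norm_num),
    tb_msk f 6 (by norm_num), tb_msk f 7 (by norm_num), tb_msk f 8 (by norm_num),
    tb_msk f 9 (by norm_num), tb_msk f 10 (by norm_num), tb_msk f 11 (by norm_num)]
  rfl

/-- the conditions for a row of the tree `t` -/
def rowOk (t m : Nat) : Bool :=
  Nat.beq (Nat.land m (Nat.shiftLeft 15 (4 * t))) 0 &&
  (!(tb m 0 && tb m 1) && (!(tb m 2 && tb m 3) && (!(tb m 4 && tb m 5) &&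
  (!(tb m 6 && tb m 7) && (!(tb m 8 && tb m 9) && !(tb m 10 && tb m 11)))))) &&
  (Nat.beq (cnt m % 2) 0 && Nat.ble 2 (cnt m))

theorem rowOk_of {r : Fin 12 → Fin 12 → Bool} (h : Good r) (a : Fin 12) :
    rowOk (a.val / 4) (msk (r a)) = true := by
  unfold rowOk
  have hu : ∀ (b c : Nat) (hb : b < 12) (hc : c < 12), b ≠ c → b / 2 = c / 2 →
      (tb (msk (r a)) b && tb (msk (r a)) c) = false := by
    intro b c hb hc hbc h2
    rw [tb_msk _ b hb, tb_msk _ c hc]
    by_contra h6
    rw [Bool.not_eq_false, Bool.and_eq_true] at h6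
    have h7 := h.unit a ⟨b, hb⟩ ⟨c, hc⟩ (fun h => hbc (congrArg Fin.val h)) h2 h6.1
    rw [h6.2] at h7
    exact absurd h7 (by simp)
  rw [hu 0 1 (by norm_num) (by norm_num) (by norm_num) (by norm_num),
    hu 2 3 (by norm_num) (by norm_num) (by norm_num) (by norm_num),
    hu 4 5 (by norm_num) (by norm_num) (by norm_num) (by norm_num),
    hu 6 7 (by norm_num) (by norm_num) (by norm_num) (by norm_num),
    hu 8 9 (by norm_num) (by norm_num) (by norm_num) (by norm_num),
    hu 10 11 (by norm_num) (by norm_num) (by norm_num) (by norm_num), cnt_msk]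
  obtain ⟨h1, h2⟩ := h.deg a
  have h3 : Nat.land (msk (r a)) (Nat.shiftLeft 15 (4 * (a.val / 4))) = 0 := by
    apply eq_of_bits
    intro l
    rw [tb_land, tb_eq 0, Nat.zero_testBit]
    by_cases hl : l < 12
    · rw [tb_msk _ l hl]
      by_contra h6
      rw [Bool.not_eq_false, Bool.and_eq_true] at h6
      obtain ⟨h6, h7⟩ := h6
      rw [tb_eq] at h7
      change (15 <<< (4 * (a.val / 4))).testBit l = true at h7
      rw [Nat.testBit_shiftLeft, Bool.and_eq_true] at h7
      have h8 : ∀ k, (15 : Nat).testBit k = true → k < 4 := by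
        intro k hk
        by_contra h9
        have : (15 : Nat) < 2 ^ k := lt_of_lt_of_le (by norm_num : (15 : Nat) < 2 ^ 4)
          (Nat.pow_le_pow_right (by norm_num) (by omega))
        rw [Nat.testBit_lt_two_pow this] at hk
        exact absurd hk (by simp)
      have h9 := h8 _ h7.2
      have h10 : 4 * (a.val / 4) ≤ l := by simpa using h7.1
      have h11 := h.tree a ⟨l, hl⟩ (by change a.val / 4 = l / 4; omega)
      rw [h6] at h11
      exact absurd h11 (by simp)
    · rw [tb_msk_ge _ l (by omega)]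
      rfl
  rw [(beq_iff _ _).2 h3, (beq_iff _ _).2 (Nat.even_iff.1 h1)]
  have h4 : Nat.ble 2 (univ.filter (fun b => r a b = true)).card = true := by
    rw [Nat.ble_eq]; exact h2
  rw [h4]
  rfl

/-- the list of all numbers `m < 4096` with `rowOk t m` and a further condition is in `L` -/
def tabOk (t : Nat) (P : Nat → Bool) (L : List Nat) : Bool :=
  (List.range 4096).all fun m => !(rowOk t m && P m) || L.contains m

theorem mem_of_tabOk {t m : Nat} {P : Nat → Bool} {L : List Nat} (h : tabOk t P L = true)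
    (hm : m < 4096) (h1 : rowOk t m = true) (h2 : P m = true) : m ∈ L := by
  unfold tabOk at h
  rw [List.all_eq_true] at h
  have h3 := h m (List.mem_range.2 hm)
  rw [h1, h2] at h3
  simpa using h3

/-- the condition that a table contains all possible rows -/
def TabOk (T : List (Nat × List Nat)) (P : Nat → Bool) : Prop :=
  ∀ p ∈ T, p.1 < 12 ∧ tabOk (p.1 / 4) P p.2 = true

/-! ## the colouring -/

def b2z (b : Bool) : ZMod 2 := cond b 1 0

theorem b2z_xor : ∀ a b : Bool, b2z (a ^^ b) = b2z a + b2z b := by decide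

theorem b2z_ne : ∀ a b : Bool, (a || b) = true → ((b2z a, b2z b) : K4) ≠ 0 := by decide

theorem pair_sum (f g : Fin 12 → ZMod 2) :
    ∑ b, ((f b, g b) : K4) = (∑ b, f b, ∑ b, g b) :=
  Prod.ext (by rw [Prod.fst_sum]) (by rw [Prod.snd_sum])

theorem pair_if : ∀ x y z : Bool, (if x = true then ((b2z y, b2z z) : K4) else 0) =
    (b2z (x && y), b2z (x && z)) := by decide

theorem sum_xor12 (f : Nat → Bool) : ∑ b : Fin 12, b2z (f b) = b2z (xor12 f) := by
  simp only [Fin.sum_univ_succ, Fin.sum_univ_zero, add_zero]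
  unfold xor12
  simp only [b2z_xor]
  rfl

theorem all12_iff (f : Nat → Bool) : all12 f = true ↔ ∀ b : Fin 12, f b = true := by
  unfold all12
  simp only [Bool.and_eq_true, Fin.forall_fin_succ, IsEmpty.forall_iff, and_true]
  rfl

theorem idx_symm : ∀ a b : Fin 12, a ≠ b → idx a b = idx b a := by decide

theorem col_of_chk {r : Fin 12 → Fin 12 → Bool} (hr : Good r) {ds : Ds} (hA : Agree (Rw r) ds)
    (hd : ∀ i < 12, tb (dmask ds) i = true) {c : Nat} (h : chk ds c = true) : Col r := by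
  have hrow : ∀ a b : Fin 12, tb (row a ds) b = r a b := by
    intro a b
    rw [row_eq hA (hd a a.2), Rw_eq, tb_msk']
  set D : Nat → Fin 12 → ZMod 2 := fun s a => b2z (dd ds c s a) with hD
  have hsum : ∀ s (a : Fin 12), ∑ b : Fin 12, b2z (r a b && tb c (s + idx a b)) = D s a := by
    intro s a
    rw [hD]
    change _ = b2z (xor12 fun b => and (tb (row a ds) b) (tb c (Nat.add s (idx a b))))
    rw [← sum_xor12]
    refine sum_congr rfl fun b _ => ?_
    rw [hrow]
    rfl
  unfold chk at h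
  rw [Bool.and_eq_true, Bool.and_eq_true] at h
  obtain ⟨h1, h2, h3⟩ := h
  rw [all12_iff] at h1
  have hx : ∀ a b c d : Bool, ((a ^^ b) || (c ^^ d)) = true →
      ((b2z a, b2z c) : K4) ≠ (b2z b, b2z d) := by decide
  have hy : ∀ a b c d : Bool, ((a ^^ b) == (c ^^ d)) = true → b2z a + b2z b = b2z c + b2z d := by
    decide
  simp only [Bool.and_eq_true] at h2 h3
  obtain ⟨p0, p1, p2⟩ := h2
  obtain ⟨⟨⟨q0, q0'⟩, q1, q1'⟩, q2, q2'⟩ := h3
  have hne0 := hx _ _ _ _ p0
  have hne4 := hx _ _ _ _ p1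
  have hne8 := hx _ _ _ _ p2
  have e0 := hy _ _ _ _ q0
  have e0' := hy _ _ _ _ q0'
  have e1 := hy _ _ _ _ q1
  have e1' := hy _ _ _ _ q1'
  have e2 := hy _ _ _ _ q2
  have e2' := hy _ _ _ _ q2'
  have E0 : ((D 0 0, D 48 0) : K4) + (D 0 1, D 48 1) = (D 0 2, D 48 2) + (D 0 3, D 48 3) :=
    Prod.ext e0 e0'
  have E1 : ((D 0 4, D 48 4) : K4) + (D 0 5, D 48 5) = (D 0 6, D 48 6) + (D 0 7, D 48 7) :=
    Prod.ext e1 e1'
  have E2 : ((D 0 8, D 48 8) : K4) + (D 0 9, D 48 9) = (D 0 10, D 48 10) + (D 0 11, D 48 11) :=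
    Prod.ext e2 e2'
  have N0 : ((D 0 0, D 48 0) : K4) ≠ (D 0 1, D 48 1) := hne0
  have N4 : ((D 0 4, D 48 4) : K4) ≠ (D 0 5, D 48 5) := hne4
  have N8 : ((D 0 8, D 48 8) : K4) ≠ (D 0 9, D 48 9) := hne8
  refine ⟨fun a b => if r a b = true then (b2z (tb c (idx a b)), b2z (tb c (48 + idx a b))) else 0,
    fun a => (D 0 a, D 48 a), ?_, ?_, ?_, ?_, ?_, ?_, ?_⟩
  · intro a b
    by_cases hab : a = b
    · rw [hab]
    · change (if r a b = true then _ else _) = if r b a = true then _ else _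
      rw [hr.symm a b, idx_symm a b hab]
  · intro a b hab
    change (if r a b = true then _ else _) ≠ _
    rw [if_pos hab]
    have h4 := h1 a
    rw [Bool.and_eq_true, all12_iff] at h4
    have h5 := h4.2 b
    rw [hrow, hab] at h5
    exact b2z_ne _ _ (by simpa using h5)
  · intro a b hab
    change (if r a b = true then _ else _) = _
    rw [hab]
    rfl
  · intro a
    change ∑ b, (if r a b = true then ((b2z (tb c (idx a b)), b2z (tb c (48 + idx a b))) : K4)
      else 0) = (D 0 a, D 48 a)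
    rw [← hsum 0 a, ← hsum 48 a, ← pair_sum]
    exact sum_congr rfl fun b _ => by rw [Nat.zero_add]; exact pair_if _ _ _
  · intro a
    have h4 := h1 a
    rw [Bool.and_eq_true] at h4
    exact b2z_ne _ _ h4.1
  · -- different leaves at the same centre
    have key : ∀ w x y z : K4, w + x = y + z → w ≠ x → y ≠ z := by decide
    intro a b hab h4
    have k0 : ((D 0 2, D 48 2) : K4) ≠ (D 0 3, D 48 3) := key _ _ _ _ E0 N0
    have k1 : ((D 0 6, D 48 6) : K4) ≠ (D 0 7, D 48 7) := key _ _ _ _ E1 N4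
    have k2 : ((D 0 10, D 48 10) : K4) ≠ (D 0 11, D 48 11) := key _ _ _ _ E2 N8
    have hall : ∀ a b : Fin 12, a ≠ b → a.val / 2 = b.val / 2 →
        (a = 0 ∧ b = 1) ∨ (a = 1 ∧ b = 0) ∨ (a = 2 ∧ b = 3) ∨ (a = 3 ∧ b = 2) ∨
        (a = 4 ∧ b = 5) ∨ (a = 5 ∧ b = 4) ∨ (a = 6 ∧ b = 7) ∨ (a = 7 ∧ b = 6) ∨
        (a = 8 ∧ b = 9) ∨ (a = 9 ∧ b = 8) ∨ (a = 10 ∧ b = 11) ∨ (a = 11 ∧ b = 10) := by decide
    rcases hall a b hab h4 with ⟨rfl, rfl⟩ | ⟨rfl, rfl⟩ | ⟨rfl, rfl⟩ | ⟨rfl, rfl⟩ | ⟨rfl, rfl⟩ |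
      ⟨rfl, rfl⟩ | ⟨rfl, rfl⟩ | ⟨rfl, rfl⟩ | ⟨rfl, rfl⟩ | ⟨rfl, rfl⟩ | ⟨rfl, rfl⟩ | ⟨rfl, rfl⟩
    · exact N0
    · exact N0.symm
    · exact k0
    · exact k0.symm
    · exact N4
    · exact N4.symm
    · exact k1
    · exact k1.symm
    · exact N8
    · exact N8.symm
    · exact k2
    · exact k2.symm
  · intro a a' b b' haa hbb h4 h5 h6
    have hS : ∀ u v : K4, u + v = v + u := by decide
    have hall : ∀ a a' : Fin 12, a ≠ a' → a.val / 2 = a'.val / 2 →
        ((D 0 a, D 48 a) : K4) + (D 0 a', D 48 a') = if a.val / 4 = 0 then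
          (D 0 0, D 48 0) + (D 0 1, D 48 1) else if a.val / 4 = 1 then
          (D 0 4, D 48 4) + (D 0 5, D 48 5) else (D 0 8, D 48 8) + (D 0 9, D 48 9) := by
      intro a a' haa h4
      have hall : ∀ a b : Fin 12, a ≠ b → a.val / 2 = b.val / 2 →
        (a = 0 ∧ b = 1) ∨ (a = 1 ∧ b = 0) ∨ (a = 2 ∧ b = 3) ∨ (a = 3 ∧ b = 2) ∨
        (a = 4 ∧ b = 5) ∨ (a = 5 ∧ b = 4) ∨ (a = 6 ∧ b = 7) ∨ (a = 7 ∧ b = 6) ∨
        (a = 8 ∧ b = 9) ∨ (a = 9 ∧ b = 8) ∨ (a = 10 ∧ b = 11) ∨ (a = 11 ∧ b = 10) := by decide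
      rcases hall a a' haa h4 with ⟨rfl, rfl⟩ | ⟨rfl, rfl⟩ | ⟨rfl, rfl⟩ | ⟨rfl, rfl⟩ | ⟨rfl, rfl⟩ |
        ⟨rfl, rfl⟩ | ⟨rfl, rfl⟩ | ⟨rfl, rfl⟩ | ⟨rfl, rfl⟩ | ⟨rfl, rfl⟩ | ⟨rfl, rfl⟩ | ⟨rfl, rfl⟩
      · exact (if_pos rfl).symm
      · exact (hS _ _).trans (if_pos rfl).symm
      · exact E0.symm.trans (if_pos rfl).symm
      · exact (hS _ _).trans (E0.symm.trans (if_pos rfl).symm)
      · exact ((if_neg (by decide)).trans (if_pos rfl)).symm
      · exact (hS _ _).trans ((if_neg (by decide)).trans (if_pos rfl)).symm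
      · exact E1.symm.trans ((if_neg (by decide)).trans (if_pos rfl)).symm
      · exact (hS _ _).trans (E1.symm.trans ((if_neg (by decide)).trans (if_pos rfl)).symm)
      · exact ((if_neg (by decide)).trans (if_neg (by decide))).symm
      · exact (hS _ _).trans ((if_neg (by decide)).trans (if_neg (by decide))).symm
      · exact E2.symm.trans ((if_neg (by decide)).trans (if_neg (by decide))).symm
      · exact (hS _ _).trans (E2.symm.trans ((if_neg (by decide)).trans (if_neg (by decide))).symm)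
    change ((D 0 a, D 48 a) : K4) + (D 0 a', D 48 a') = (D 0 b, D 48 b) + (D 0 b', D 48 b')
    rw [hall a a' haa h4, hall b b' hbb h5, h6]

/-! ## the exceptional cuts -/

theorem bad_false {r : Fin 12 → Fin 12 → Bool} (hr : Good r) {ds : Ds} (hA : Agree (Rw r) ds)
    (hd : ∀ i < 12, tb (dmask ds) i = true) (h : bad ds = true) : False := by
  have key : ∀ S : Nat, badS S ds = true →
      ∀ a b : Fin 12, tb S a = true → tb S b = false → r a b = false := by
    intro S hS a b ha hb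
    have h1 : Nat.land (orr S ds) (Nat.xor 4095 S) = 0 := (beq_iff _ _).1 hS
    have h2 : ∀ (ds : Ds) (p : Nat × Nat), p ∈ ds → tb S p.1 = true → tb p.2 b = true →
        tb (orr S ds) b = true := by
      intro ds
      induction ds with
      | nil => intro p hp; exact absurd hp (by simp)
      | cons q ds ih =>
        intro p hp h3 h4
        change tb (Nat.lor (cond (tb S q.1) q.2 0) (orr S ds)) b = true
        rw [tb_lor, Bool.or_eq_true]
        rcases List.mem_cons.1 hp with rfl | hp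
        · left; rw [h3]; exact h4
        · right; exact ih p hp h3 h4
    by_contra h3
    rw [Bool.not_eq_false] at h3
    obtain ⟨p, hp, hpa⟩ := (dmask_iff ds a).1 (hd a a.2)
    have h4 := h2 ds p hp (by rw [hpa]; exact ha) (by
      rw [(hA p hp).2, hpa, Rw_eq, tb_msk']; exact h3)
    have h5 : tb (Nat.land (orr S ds) (Nat.xor 4095 S)) b = true := by
      rw [tb_land, h4, Bool.true_and]
      have h6 : tb (Nat.xor 4095 S) b = (tb 4095 b ^^ tb S b) := by
        rw [tb_eq, tb_eq, tb_eq]; exact Nat.testBit_xor _ _ _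
      rw [h6, hb]
      have : ∀ b : Fin 12, (tb 4095 b ^^ false) = true := by decide
      exact this b
    rw [h1, tb_eq, Nat.zero_testBit] at h5
    exact absurd h5 (by simp)
  have fin : ∀ S : Nat, badS S ds = true →
      (∀ a b : Fin 12, a.val / 2 = b.val / 2 → tb S a = tb S b) →
      (∀ a b : Fin 12, a.val / 4 = b.val / 4 → a.val / 2 ≠ b.val / 2 → tb S a ≠ tb S b) → False := by
    intro S hS h1 h2
    obtain ⟨a, b, ha, hb, hab⟩ := hr.cut (fun a => tb S a) h1 h2
    have := key S hS a b ha hb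
    rw [hab] at this
    exact absurd this (by simp)
  unfold bad at h
  rw [Bool.or_eq_true, Bool.or_eq_true, Bool.or_eq_true] at h
  rcases h with h | h | h | h
  · exact fin 819 h (by decide) (by decide)
  · exact fin 3123 h (by decide) (by decide)
  · exact fin 963 h (by decide) (by decide)
  · exact fin 3267 h (by decide) (by decide)

/-- **From the search to colourings.** -/
theorem col_of_go {r : Fin 12 → Fin 12 → Bool} (hr : Good r) {T : List (Nat × List Nat)}
    {P : Nat → Bool} (hT : TabOk T P) (hP : ∀ a, P (msk (r a)) = true) {k : Nat} {ds : Ds}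
    {cs : List Nat} (hA : Agree (Rw r) ds) (h : (go T k ds cs).isSome = true) : Col r := by
  have h1 : Concl (Rw r) := by
    refine go_sound (T := T) (k := k) (ds := ds) (cs := cs) (fun p hp => ?_) hr.cons hA ?_
    · obtain ⟨h2, h3⟩ := hT p hp
      refine ⟨h2, ?_⟩
      rw [Rw_eq' r p.1 h2]
      exact mem_of_tabOk h3 (msk_lt _) (rowOk_of hr ⟨p.1, h2⟩) (hP _)
    · intro h2
      rw [h2] at h
      exact absurd h (by simp)
  obtain ⟨ds', hA', hd, h2 | ⟨c, h2⟩⟩ := h1
  · exact (bad_false hr hA' hd h2).elim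
  · exact col_of_chk hr hA' hd h2

end Pool.T9h45.MM
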