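import Mathlib.Data.List.Basic

set_option autoImplicit false

/-! # Tables of permutations of the leaves -/

namespace Pool.T9h45.MM

/-- permutations with their inverses, which move `0` to any place -/
def P1 : List (List (Fin 12) × List (Fin 12)) := [
  ([0,1,2,3,4,5,6,7,8,9,10,11], [0,1,2,3,4,5,6,7,8,9,10,11]),
  ([1,0,2,3,4,5,6,7,8,9,10,11], [1,0,2,3,4,5,6,7,8,9,10,11]),
  ([2,3,0,1,4,5,6,7,8,9,10,11], [2,3,0,1,4,5,6,7,8,9,10,11]),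
  ([3,2,0,1,4,5,6,7,8,9,10,11], [2,3,1,0,4,5,6,7,8,9,10,11]),
  ([4,5,6,7,0,1,2,3,8,9,10,11], [4,5,6,7,0,1,2,3,8,9,10,11]),
  ([5,4,6,7,0,1,2,3,8,9,10,11], [4,5,6,7,1,0,2,3,8,9,10,11]),
  ([6,7,4,5,0,1,2,3,8,9,10,11], [4,5,6,7,2,3,0,1,8,9,10,11]),
  ([7,6,4,5,0,1,2,3,8,9,10,11], [4,5,6,7,2,3,1,0,8,9,10,11]),
  ([8,9,10,11,0,1,2,3,4,5,6,7], [4,5,6,7,8,9,10,11,0,1,2,3]),
  ([9,8,10,11,0,1,2,3,4,5,6,7], [4,5,6,7,8,9,10,11,1,0,2,3]),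
  ([10,11,8,9,0,1,2,3,4,5,6,7], [4,5,6,7,8,9,10,11,2,3,0,1]),
  ([11,10,8,9,0,1,2,3,4,5,6,7], [4,5,6,7,8,9,10,11,2,3,1,0])]

/-- normal forms of the first row -/
def T2 : List ((Nat × Nat) × (List (Fin 12) × List (Fin 12))) := [
  ((80, 80), ([0,1,2,3,4,5,6,7,8,9,10,11], [0,1,2,3,4,5,6,7,8,9,10,11])),
  ((96, 80), ([0,1,2,3,5,4,6,7,8,9,10,11], [0,1,2,3,5,4,6,7,8,9,10,11])),
  ((144, 80), ([0,1,2,3,4,5,7,6,8,9,10,11], [0,1,2,3,4,5,7,6,8,9,10,11])),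
  ((160, 80), ([0,1,2,3,5,4,7,6,8,9,10,11], [0,1,2,3,5,4,7,6,8,9,10,11])),
  ((272, 272), ([0,1,2,3,4,5,6,7,8,9,10,11], [0,1,2,3,4,5,6,7,8,9,10,11])),
  ((288, 272), ([0,1,2,3,5,4,6,7,8,9,10,11], [0,1,2,3,5,4,6,7,8,9,10,11])),
  ((320, 272), ([0,1,2,3,6,7,4,5,8,9,10,11], [0,1,2,3,6,7,4,5,8,9,10,11])),
  ((384, 272), ([0,1,2,3,7,6,4,5,8,9,10,11], [0,1,2,3,6,7,5,4,8,9,10,11])),
  ((528, 272), ([0,1,2,3,4,5,6,7,9,8,10,11], [0,1,2,3,4,5,6,7,9,8,10,11])),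
  ((544, 272), ([0,1,2,3,5,4,6,7,9,8,10,11], [0,1,2,3,5,4,6,7,9,8,10,11])),
  ((576, 272), ([0,1,2,3,6,7,4,5,9,8,10,11], [0,1,2,3,6,7,4,5,9,8,10,11])),
  ((640, 272), ([0,1,2,3,7,6,4,5,9,8,10,11], [0,1,2,3,6,7,5,4,9,8,10,11])),
  ((1040, 272), ([0,1,2,3,4,5,6,7,10,11,8,9], [0,1,2,3,4,5,6,7,10,11,8,9])),
  ((1056, 272), ([0,1,2,3,5,4,6,7,10,11,8,9], [0,1,2,3,5,4,6,7,10,11,8,9])),
  ((1088, 272), ([0,1,2,3,6,7,4,5,10,11,8,9], [0,1,2,3,6,7,4,5,10,11,8,9])),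
  ((1152, 272), ([0,1,2,3,7,6,4,5,10,11,8,9], [0,1,2,3,6,7,5,4,10,11,8,9])),
  ((1280, 80), ([0,1,2,3,8,9,10,11,4,5,6,7], [0,1,2,3,8,9,10,11,4,5,6,7])),
  ((1360, 1360), ([0,1,2,3,4,5,6,7,8,9,10,11], [0,1,2,3,4,5,6,7,8,9,10,11])),
  ((1376, 1360), ([0,1,2,3,5,4,6,7,8,9,10,11], [0,1,2,3,5,4,6,7,8,9,10,11])),
  ((1424, 1360), ([0,1,2,3,4,5,7,6,8,9,10,11], [0,1,2,3,4,5,7,6,8,9,10,11])),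
  ((1440, 1360), ([0,1,2,3,5,4,7,6,8,9,10,11], [0,1,2,3,5,4,7,6,8,9,10,11])),
  ((1536, 80), ([0,1,2,3,9,8,10,11,4,5,6,7], [0,1,2,3,8,9,10,11,5,4,6,7])),
  ((1616, 1360), ([0,1,2,3,4,5,6,7,9,8,10,11], [0,1,2,3,4,5,6,7,9,8,10,11])),
  ((1632, 1360), ([0,1,2,3,5,4,6,7,9,8,10,11], [0,1,2,3,5,4,6,7,9,8,10,11])),
  ((1680, 1360), ([0,1,2,3,4,5,7,6,9,8,10,11], [0,1,2,3,4,5,7,6,9,8,10,11])),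
  ((1696, 1360), ([0,1,2,3,5,4,7,6,9,8,10,11], [0,1,2,3,5,4,7,6,9,8,10,11])),
  ((2064, 272), ([0,1,2,3,4,5,6,7,11,10,8,9], [0,1,2,3,4,5,6,7,10,11,9,8])),
  ((2080, 272), ([0,1,2,3,5,4,6,7,11,10,8,9], [0,1,2,3,5,4,6,7,10,11,9,8])),
  ((2112, 272), ([0,1,2,3,6,7,4,5,11,10,8,9], [0,1,2,3,6,7,4,5,10,11,9,8])),
  ((2176, 272), ([0,1,2,3,7,6,4,5,11,10,8,9], [0,1,2,3,6,7,5,4,10,11,9,8])),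
  ((2304, 80), ([0,1,2,3,8,9,11,10,4,5,6,7], [0,1,2,3,8,9,10,11,4,5,7,6])),
  ((2384, 1360), ([0,1,2,3,4,5,6,7,8,9,11,10], [0,1,2,3,4,5,6,7,8,9,11,10])),
  ((2400, 1360), ([0,1,2,3,5,4,6,7,8,9,11,10], [0,1,2,3,5,4,6,7,8,9,11,10])),
  ((2448, 1360), ([0,1,2,3,4,5,7,6,8,9,11,10], [0,1,2,3,4,5,7,6,8,9,11,10])),
  ((2464, 1360), ([0,1,2,3,5,4,7,6,8,9,11,10], [0,1,2,3,5,4,7,6,8,9,11,10])),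
  ((2560, 80), ([0,1,2,3,9,8,11,10,4,5,6,7], [0,1,2,3,8,9,10,11,5,4,7,6])),
  ((2640, 1360), ([0,1,2,3,4,5,6,7,9,8,11,10], [0,1,2,3,4,5,6,7,9,8,11,10])),
  ((2656, 1360), ([0,1,2,3,5,4,6,7,9,8,11,10], [0,1,2,3,5,4,6,7,9,8,11,10])),
  ((2704, 1360), ([0,1,2,3,4,5,7,6,9,8,11,10], [0,1,2,3,4,5,7,6,9,8,11,10])),
  ((2720, 1360), ([0,1,2,3,5,4,7,6,9,8,11,10], [0,1,2,3,5,4,7,6,9,8,11,10]))]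

/-- normal forms of the rows of `4` and `6` -/
def T3 : List (((Nat × Nat) × (Nat × Nat)) × (List (Fin 12) × List (Fin 12))) := [
  (((5, 9), (5, 9)), ([0,1,2,3,4,5,6,7,8,9,10,11], [0,1,2,3,4,5,6,7,8,9,10,11])),
  (((5, 257), (5, 257)), ([0,1,2,3,4,5,6,7,8,9,10,11], [0,1,2,3,4,5,6,7,8,9,10,11])),
  (((5, 513), (5, 257)), ([0,1,2,3,4,5,6,7,9,8,10,11], [0,1,2,3,4,5,6,7,9,8,10,11])),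
  (((5, 1025), (5, 257)), ([0,1,2,3,4,5,6,7,10,11,8,9], [0,1,2,3,4,5,6,7,10,11,8,9])),
  (((5, 2049), (5, 257)), ([0,1,2,3,4,5,6,7,11,10,8,9], [0,1,2,3,4,5,6,7,10,11,9,8])),
  (((9, 5), (5, 9)), ([0,1,3,2,4,5,6,7,8,9,10,11], [0,1,3,2,4,5,6,7,8,9,10,11])),
  (((9, 257), (5, 257)), ([0,1,3,2,4,5,6,7,8,9,10,11], [0,1,3,2,4,5,6,7,8,9,10,11])),
  (((9, 513), (5, 257)), ([0,1,3,2,4,5,6,7,9,8,10,11], [0,1,3,2,4,5,6,7,9,8,10,11])),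
  (((9, 1025), (5, 257)), ([0,1,3,2,4,5,6,7,10,11,8,9], [0,1,3,2,4,5,6,7,10,11,8,9])),
  (((9, 2049), (5, 257)), ([0,1,3,2,4,5,6,7,11,10,8,9], [0,1,3,2,4,5,6,7,10,11,9,8])),
  (((257, 5), (257, 5)), ([0,1,2,3,4,5,6,7,8,9,10,11], [0,1,2,3,4,5,6,7,8,9,10,11])),
  (((257, 9), (257, 5)), ([0,1,3,2,4,5,6,7,8,9,10,11], [0,1,3,2,4,5,6,7,8,9,10,11])),
  (((257, 513), (257, 513)), ([0,1,2,3,4,5,6,7,8,9,10,11], [0,1,2,3,4,5,6,7,8,9,10,11])),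
  (((257, 1025), (257, 1025)), ([0,1,2,3,4,5,6,7,8,9,10,11], [0,1,2,3,4,5,6,7,8,9,10,11])),
  (((257, 2049), (257, 1025)), ([0,1,2,3,4,5,6,7,8,9,11,10], [0,1,2,3,4,5,6,7,8,9,11,10])),
  (((513, 5), (257, 5)), ([0,1,2,3,4,5,6,7,9,8,10,11], [0,1,2,3,4,5,6,7,9,8,10,11])),
  (((513, 9), (257, 5)), ([0,1,3,2,4,5,6,7,9,8,10,11], [0,1,3,2,4,5,6,7,9,8,10,11])),
  (((513, 257), (257, 513)), ([0,1,2,3,4,5,6,7,9,8,10,11], [0,1,2,3,4,5,6,7,9,8,10,11])),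
  (((513, 1025), (257, 1025)), ([0,1,2,3,4,5,6,7,9,8,10,11], [0,1,2,3,4,5,6,7,9,8,10,11])),
  (((513, 2049), (257, 1025)), ([0,1,2,3,4,5,6,7,9,8,11,10], [0,1,2,3,4,5,6,7,9,8,11,10])),
  (((1025, 5), (257, 5)), ([0,1,2,3,4,5,6,7,10,11,8,9], [0,1,2,3,4,5,6,7,10,11,8,9])),
  (((1025, 9), (257, 5)), ([0,1,3,2,4,5,6,7,10,11,8,9], [0,1,3,2,4,5,6,7,10,11,8,9])),
  (((1025, 257), (257, 1025)), ([0,1,2,3,4,5,6,7,10,11,8,9], [0,1,2,3,4,5,6,7,10,11,8,9])),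
  (((1025, 513), (257, 1025)), ([0,1,2,3,4,5,6,7,10,11,9,8], [0,1,2,3,4,5,6,7,11,10,8,9])),
  (((1025, 2049), (257, 513)), ([0,1,2,3,4,5,6,7,10,11,8,9], [0,1,2,3,4,5,6,7,10,11,8,9])),
  (((2049, 5), (257, 5)), ([0,1,2,3,4,5,6,7,11,10,8,9], [0,1,2,3,4,5,6,7,10,11,9,8])),
  (((2049, 9), (257, 5)), ([0,1,3,2,4,5,6,7,11,10,8,9], [0,1,3,2,4,5,6,7,10,11,9,8])),
  (((2049, 257), (257, 1025)), ([0,1,2,3,4,5,6,7,11,10,8,9], [0,1,2,3,4,5,6,7,10,11,9,8])),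
  (((2049, 513), (257, 1025)), ([0,1,2,3,4,5,6,7,11,10,9,8], [0,1,2,3,4,5,6,7,11,10,9,8])),
  (((2049, 1025), (257, 513)), ([0,1,2,3,4,5,6,7,11,10,8,9], [0,1,2,3,4,5,6,7,10,11,9,8]))]

end Pool.T9h45.MM
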