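import Mathlib
import Pool.Agent.T9h45.MM.Good
import Pool.Agent.T9h45.MM.Perms

set_option autoImplicit false

/-! # Relabelling of the leaves -/

namespace Pool.T9h45.MM

open Finset

/-- the permutation respects centres and trees -/
structure Aut (σ : Equiv.Perm (Fin 12)) : Prop where
  u : ∀ a b, (σ a).val / 2 = (σ b).val / 2 ↔ a.val / 2 = b.val / 2
  t : ∀ a b, (σ a).val / 4 = (σ b).val / 4 ↔ a.val / 4 = b.val / 4

/-- relabelling -/
def pull (r : Fin 12 → Fin 12 → Bool) (σ : Equiv.Perm (Fin 12)) (a b : Fin 12) : Bool :=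
  r (σ a) (σ b)

theorem card_pull (r : Fin 12 → Fin 12 → Bool) (σ : Equiv.Perm (Fin 12)) (a : Fin 12) :
    (univ.filter (fun b => pull r σ a b = true)).card =
      (univ.filter (fun b => r (σ a) b = true)).card := by
  refine card_bij (fun b _ => σ b) (fun b hb => ?_) (fun b _ c _ h => σ.injective h)
    (fun b hb => ⟨σ.symm b, ?_, by simp⟩)
  · exact mem_filter.2 ⟨mem_univ _, (mem_filter.1 hb).2⟩
  · refine mem_filter.2 ⟨mem_univ _, ?_⟩
    change r (σ a) (σ (σ.symm b)) = true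
    rw [σ.apply_symm_apply]
    exact (mem_filter.1 hb).2

theorem Good.pull {r : Fin 12 → Fin 12 → Bool} (h : Good r) {σ : Equiv.Perm (Fin 12)}
    (hσ : Aut σ) : Good (pull r σ) where
  symm a b := h.symm _ _
  tree a b hab := h.tree _ _ ((hσ.t a b).2 hab)
  unit a b c hbc h2 h1 := h.unit _ _ _ (fun h3 => hbc (σ.injective h3)) ((hσ.u b c).2 h2) h1
  tri a b c := h.tri _ _ _
  quad a b c d h1 h2 := h.quad _ _ _ _ (σ.injective.ne h1) (σ.injective.ne h2)
  deg a := by rw [card_pull]; exact h.deg _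
  cut s h1 h2 := by
    have e : ∀ a : Fin 12, σ (σ.symm a) = a := fun a => σ.apply_symm_apply a
    obtain ⟨a, b, ha, hb, hab⟩ := h.cut (fun a => s (σ.symm a))
      (fun a b hab => h1 _ _ (by rw [← hσ.u, e, e]; exact hab))
      (fun a b hab hab2 => h2 _ _ (by rw [← hσ.t, e, e]; exact hab)
        (fun h3 => hab2 (by rw [← hσ.u, e, e] at h3; exact h3)))
    refine ⟨σ.symm a, σ.symm b, ha, hb, ?_⟩
    change r (σ (σ.symm a)) (σ (σ.symm b)) = true
    rw [e, e]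
    exact hab

theorem Col.of_pull {r : Fin 12 → Fin 12 → Bool} {σ : Equiv.Perm (Fin 12)} (hσ : Aut σ)
    (h : Col (pull r σ)) : Col r := by
  obtain ⟨c, d, h1, h2, h3, h4, h5, h6, h7⟩ := h
  have e : ∀ a : Fin 12, σ (σ.symm a) = a := fun a => σ.apply_symm_apply a
  have eu : ∀ a b : Fin 12, a.val / 2 = b.val / 2 → (σ.symm a).val / 2 = (σ.symm b).val / 2 := by
    intro a b hab
    rw [← hσ.u, e, e]
    exact hab
  have et : ∀ a b : Fin 12, a.val / 4 = b.val / 4 → (σ.symm a).val / 4 = (σ.symm b).val / 4 := by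
    intro a b hab
    rw [← hσ.t, e, e]
    exact hab
  refine ⟨fun a b => c (σ.symm a) (σ.symm b), fun a => d (σ.symm a), fun a b => h1 _ _,
    fun a b hab => h2 _ _ ?_, fun a b hab => h3 _ _ ?_, fun a => ?_, fun a => h5 _,
    fun a b hab hu => h6 _ _ (σ.symm.injective.ne hab) (eu _ _ hu),
    fun a a' b b' ha hb k1 k2 k3 => h7 _ _ _ _ (σ.symm.injective.ne ha) (σ.symm.injective.ne hb)
      (eu _ _ k1) (eu _ _ k2) (et _ _ k3)⟩
  · change r (σ (σ.symm a)) (σ (σ.symm b)) = true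
    rw [e, e]; exact hab
  · change r (σ (σ.symm a)) (σ (σ.symm b)) = false
    rw [e, e]; exact hab
  · change ∑ b, c (σ.symm a) (σ.symm b) = _
    rw [Equiv.sum_comp σ.symm (fun b => c (σ.symm a) b)]
    exact h4 _

/-! ## permutations from tables -/

abbrev at' (l : List (Fin 12)) (a : Fin 12) : Fin 12 := l.getD a.val 0

def AutL (p : List (Fin 12) × List (Fin 12)) : Prop :=
  (∀ a, at' p.2 (at' p.1 a) = a) ∧ (∀ a, at' p.1 (at' p.2 a) = a) ∧
  ∀ a b : Fin 12, ((at' p.1 a).val / 2 = (at' p.1 b).val / 2 ↔ a.val / 2 = b.val / 2) ∧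
    ((at' p.1 a).val / 4 = (at' p.1 b).val / 4 ↔ a.val / 4 = b.val / 4)

instance (p : List (Fin 12) × List (Fin 12)) : Decidable (AutL p) := by
  unfold AutL; infer_instance

theorem AutL.ex {p : List (Fin 12) × List (Fin 12)} (h : AutL p) :
    ∃ σ : Equiv.Perm (Fin 12), Aut σ ∧ ∀ a, σ a = at' p.1 a :=
  ⟨⟨at' p.1, at' p.2, h.1, h.2.1⟩, ⟨fun a b => (h.2.2 a b).1, fun a b => (h.2.2 a b).2⟩,
    fun _ => rfl⟩

theorem p1_ok : ∀ v : Fin 12, ∃ p ∈ P1, AutL p ∧ at' p.1 0 = v := by decide +kernel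

theorem t2_ok : ∀ t ∈ T2, AutL t.2 ∧ at' t.2.1 0 = 0 ∧
    (∀ b : Fin 12, tb t.1.1 (at' t.2.1 b) = tb t.1.2 b) := by decide +kernel

theorem t3_ok : ∀ t ∈ T3, AutL t.2 ∧ at' t.2.1 0 = 0 ∧ at' t.2.1 4 = 4 ∧ at' t.2.1 6 = 6 ∧
    (∀ b : Fin 12, tb 80 (at' t.2.1 b) = tb 80 b ∧
      tb t.1.1.1 (at' t.2.1 b) = tb t.1.2.1 b ∧ tb t.1.1.2 (at' t.2.1 b) = tb t.1.2.2 b) := by
  decide +kernel

end Pool.T9h45.MM
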