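import Pool.Agent.T9h45.MM.Dfs

set_option autoImplicit false

/-! # Runs of the search: two neighbours in the same tree -/

namespace Pool.T9h45.MM

theorem runA1 : (go cubT 9 [(0, 80), (4, 5), (6, 9)] certA1).isSome = true := by decide +kernel

theorem runA2 : (go cubT 9 [(0, 80), (4, 5), (6, 257)] certA2).isSome = true := by decide +kernel

theorem runA2p : (go cubT 9 [(0, 80), (4, 257), (6, 5)] certA2p).isSome = true := by
  decide +kernel

theorem runA3 : (go cubT 9 [(0, 80), (4, 257), (6, 513)] certA3).isSome = true := by
  decide +kernel

theorem runA4 : (go cubT 9 [(0, 80), (4, 257), (6, 1025)] certA4).isSome = true := by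
  decide +kernel

end Pool.T9h45.MM
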