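import Pool.Agent.T9h45.MM.Dfs

set_option autoImplicit false

/-! # Runs of the search: neighbours in different trees -/

namespace Pool.T9h45.MM

theorem runB : (go splT 11 [(0, 272)] certB).isSome = true := by decide +kernel

end Pool.T9h45.MM
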