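import Pool.Agent.T9h45.MM.Dfs

set_option autoImplicit false

/-! # Runs of the search: a leaf with four neighbours -/

namespace Pool.T9h45.MM

theorem runC : (go all4T 11 [(0, 1360)] certC).isSome = true := by decide +kernel

end Pool.T9h45.MM
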