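import Pool.Agent.T9h45.MM.Aut
import Pool.Agent.T9h45.MM.RunA
import Pool.Agent.T9h45.MM.RunB
import Pool.Agent.T9h45.MM.RunC

set_option autoImplicit false

/-! # All structures have a colouring -/

namespace Pool.T9h45.MM

open Finset

/-- all elements in the same tree -/
def sameT (m : Nat) : Bool :=
  Nat.beq (Nat.land m 15) m || (Nat.beq (Nat.land m 240) m || Nat.beq (Nat.land m 3840) m)

instance (T : List (Nat × List Nat)) (P : Nat → Bool) : Decidable (TabOk T P) := by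
  unfold TabOk; infer_instance

theorem tabC : TabOk all4T (fun _ => true) := by decide +kernel

theorem tabA : TabOk cubT (fun m => Nat.beq (cnt m) 2) := by decide +kernel

theorem tabB : TabOk splT (fun m => Nat.beq (cnt m) 2 && !(sameT m)) := by decide +kernel

theorem cov2 : tabOk 0 (fun _ => true) (T2.map (fun t => t.1.1)) = true := by decide +kernel

theorem nf2 : ∀ t ∈ T2, t.1.2 < 4096 ∧ (cnt t.1.1 ≠ 2 → t.1.2 = 1360) ∧
    (cnt t.1.1 = 2 → sameT t.1.1 = true → t.1.2 = 80) ∧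
    (cnt t.1.1 = 2 → sameT t.1.1 = false → t.1.2 = 272) := by decide +kernel

theorem cov3 : tabOk 1 (fun m => Nat.beq (cnt m) 2 && tb m 0) [5, 9, 257, 513, 1025, 2049] = true := by
  decide +kernel

theorem nf3 : ∀ m ∈ [5, 9, 257, 513, 1025, 2049], ∀ m' ∈ [5, 9, 257, 513, 1025, 2049], m ≠ m' →
    ∃ t ∈ T3, t.1.1 = (m, m') ∧
      t.1.2 ∈ [(5, 9), (5, 257), (257, 5), (257, 513), (257, 1025)] := by decide +kernel

theorem msk_eq {f : Fin 12 → Bool} {n : Nat} (hn : n < 4096) (h : ∀ b : Fin 12, f b = tb n b) :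
    msk f = n := by
  apply eq_of_bits
  intro k
  by_cases hk : k < 12
  · rw [tb_msk f k hk]
    exact h ⟨k, hk⟩
  · rw [tb_msk_ge f k (by omega), tb_eq]
    refine (Nat.testBit_lt_two_pow (lt_of_lt_of_le hn ?_)).symm
    exact (Nat.pow_le_pow_right (by norm_num) (show 12 ≤ k by omega) : 2 ^ 12 ≤ 2 ^ k)

theorem agree1 {r : Fin 12 → Fin 12 → Bool} {n : Nat} (h : msk (r 0) = n) :
    Agree (Rw r) [(0, n)] := by
  intro p hp
  rw [List.mem_singleton] at hp
  subst hp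
  exact ⟨by norm_num, by rw [Rw_eq' r 0 (by norm_num)]; exact h.symm⟩

theorem agree3 {r : Fin 12 → Fin 12 → Bool} {a b c : Nat} (h0 : msk (r 0) = a)
    (h4 : msk (r 4) = b) (h6 : msk (r 6) = c) : Agree (Rw r) [(0, a), (4, b), (6, c)] := by
  intro p hp
  simp only [List.mem_cons, List.not_mem_nil, or_false] at hp
  rcases hp with rfl | rfl | rfl
  · exact ⟨by norm_num, by rw [Rw_eq' r 0 (by norm_num)]; exact h0.symm⟩
  · exact ⟨by norm_num, by rw [Rw_eq' r 4 (by norm_num)]; exact h4.symm⟩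
  · exact ⟨by norm_num, by rw [Rw_eq' r 6 (by norm_num)]; exact h6.symm⟩

theorem cnt_pull (r : Fin 12 → Fin 12 → Bool) (σ : Equiv.Perm (Fin 12)) (a : Fin 12) :
    cnt (msk (pull r σ a)) = cnt (msk (r (σ a))) := by
  rw [cnt_msk, cnt_msk, card_pull]

theorem sameT_iff (f : Fin 12 → Bool) : sameT (msk f) = true ↔
    ∃ t, ∀ b : Fin 12, f b = true → b.val / 4 = t := by
  have key : ∀ (S t : Nat), (∀ b : Fin 12, tb S b = decide (b.val / 4 = t)) →
      (Nat.beq (Nat.land (msk f) S) (msk f) = true ↔ ∀ b : Fin 12, f b = true → b.val / 4 = t) := by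
    intro S t hS
    rw [beq_iff]
    constructor
    · intro h b hb
      have h1 : tb (Nat.land (msk f) S) b = true := by rw [h, tb_msk']; exact hb
      rw [tb_land, Bool.and_eq_true, hS] at h1
      simpa using h1.2
    · intro h
      apply eq_of_bits
      intro k
      rw [tb_land]
      by_cases hk : k < 12
      · rw [tb_msk f k hk]
        cases h1 : f ⟨k, hk⟩
        · rfl
        · have h2 := hS ⟨k, hk⟩
          rw [show tb S k = true from h2.trans (by simpa using h _ h1)]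
          rfl
      · rw [tb_msk_ge f k (by omega)]
        rfl
  unfold sameT
  rw [Bool.or_eq_true, Bool.or_eq_true, key 15 0 (by decide), key 240 1 (by decide),
    key 3840 2 (by decide)]
  constructor
  · rintro (h | h | h)
    · exact ⟨0, h⟩
    · exact ⟨1, h⟩
    · exact ⟨2, h⟩
  · rintro ⟨t, h⟩
    by_cases h0 : t = 0
    · subst h0; exact Or.inl h
    by_cases h1 : t = 1
    · subst h1; exact Or.inr (Or.inl h)
    · refine Or.inr (Or.inr fun b hb => ?_)
      have := h b hb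
      have := b.2
      omega

theorem sameT_pull {r : Fin 12 → Fin 12 → Bool} {σ : Equiv.Perm (Fin 12)} (hσ : Aut σ)
    (a : Fin 12) : sameT (msk (pull r σ a)) = sameT (msk (r (σ a))) := by
  have e : ∀ a : Fin 12, σ (σ.symm a) = a := fun a => σ.apply_symm_apply a
  rw [Bool.eq_iff_iff, sameT_iff, sameT_iff]
  constructor
  · rintro ⟨t, h⟩
    by_cases h1 : ∃ b, r (σ a) b = true
    · obtain ⟨b, hb⟩ := h1
      refine ⟨b.val / 4, fun b' hb' => ?_⟩
      have h2 := h (σ.symm b) (by change r (σ a) (σ (σ.symm b)) = true; rw [e]; exact hb)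
      have h3 := h (σ.symm b') (by change r (σ a) (σ (σ.symm b')) = true; rw [e]; exact hb')
      have h4 := (hσ.t (σ.symm b') (σ.symm b)).2 (h3.trans h2.symm)
      rwa [e, e] at h4
    · exact ⟨0, fun b hb => absurd ⟨b, hb⟩ h1⟩
  · rintro ⟨t, h⟩
    by_cases h1 : ∃ b, pull r σ a b = true
    · obtain ⟨b, hb⟩ := h1
      refine ⟨b.val / 4, fun b' hb' => ?_⟩
      exact (hσ.t b' b).1 ((h _ hb').trans (h _ hb).symm)
    · exact ⟨0, fun b hb => absurd ⟨b, hb⟩ h1⟩

/-- normal form of the first row -/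
theorem norm0 {r : Fin 12 → Fin 12 → Bool} (hr : Good r) : ∃ σ : Equiv.Perm (Fin 12),
    Aut σ ∧ σ 0 = 0 ∧ ∃ n, msk (pull r σ 0) = n ∧ (cnt (msk (r 0)) ≠ 2 → n = 1360) ∧
      (cnt (msk (r 0)) = 2 → sameT (msk (r 0)) = true → n = 80) ∧
      (cnt (msk (r 0)) = 2 → sameT (msk (r 0)) = false → n = 272) := by
  have h1 := mem_of_tabOk cov2 (msk_lt (r 0)) (rowOk_of hr 0) rfl
  rw [List.mem_map] at h1
  obtain ⟨t, ht, h2⟩ := h1
  obtain ⟨h3, h4, h5⟩ := t2_ok t ht
  obtain ⟨h6, h7⟩ := nf2 t ht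
  obtain ⟨σ, hσ, hσ2⟩ := h3.ex
  refine ⟨σ, hσ, by rw [hσ2]; exact h4, t.1.2, ?_, ?_⟩
  · apply msk_eq h6
    intro b
    have h8 := h5 b
    rw [← h8, h2, tb_msk', ← hσ2]
    change r (σ 0) (σ b) = _
    rw [hσ2 0, h4]
  · rw [← h2]
    exact h7

theorem norm1 {r : Fin 12 → Fin 12 → Bool} (hr : Good r) (v : Fin 12) :
    ∃ σ : Equiv.Perm (Fin 12), Aut σ ∧ σ 0 = v := by
  obtain ⟨p, _, h1, h2⟩ := p1_ok v
  obtain ⟨σ, hσ, hσ2⟩ := h1.ex
  exact ⟨σ, hσ, by rw [hσ2]; exact h2⟩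

theorem colA {r : Fin 12 → Fin 12 → Bool} (hr : Good r) (h2 : ∀ a, cnt (msk (r a)) = 2)
    (h0 : msk (r 0) = 80) : Col r := by
  have hP : ∀ (r : Fin 12 → Fin 12 → Bool), (∀ a, cnt (msk (r a)) = 2) →
      ∀ a, (fun m => Nat.beq (cnt m) 2) (msk (r a)) = true := fun r h a => (beq_iff _ _).2 (h a)
  have r04 : r 0 4 = true := by
    rw [← tb_msk' (r 0) 4, h0]; decide
  have r06 : r 0 6 = true := by
    rw [← tb_msk' (r 0) 6, h0]; decide
  have m4 := mem_of_tabOk cov3 (msk_lt (r 4)) (rowOk_of hr 4) (by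
    change (Nat.beq (cnt (msk (r 4))) 2 && tb (msk (r 4)) 0) = true
    rw [(beq_iff _ _).2 (h2 4), Bool.true_and]
    exact (tb_msk' (r 4) 0).trans ((hr.symm 4 0).trans r04))
  have m6 := mem_of_tabOk cov3 (msk_lt (r 6)) (rowOk_of hr 6) (by
    change (Nat.beq (cnt (msk (r 6))) 2 && tb (msk (r 6)) 0) = true
    rw [(beq_iff _ _).2 (h2 6), Bool.true_and]
    exact (tb_msk' (r 6) 0).trans ((hr.symm 6 0).trans r06))
  have hne : msk (r 4) ≠ msk (r 6) := by
    intro h
    -- the second neighbour would be common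
    have h3 : ∃ q : Fin 12, q ≠ 0 ∧ r 4 q = true := by
      have h4 := h2 4
      rw [cnt_msk] at h4
      obtain ⟨x, y, hxy, hs⟩ := card_eq_two.1 h4
      have hx : x ∈ univ.filter (fun b => r 4 b = true) := by rw [hs]; simp
      have hy : y ∈ univ.filter (fun b => r 4 b = true) := by rw [hs]; simp
      by_cases hx0 : x = 0
      · exact ⟨y, fun h => hxy (hx0.trans h.symm), (mem_filter.1 hy).2⟩
      · exact ⟨x, hx0, (mem_filter.1 hx).2⟩
    obtain ⟨q, hq, hq4⟩ := h3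
    have hq6 : r 6 q = true := by
      rw [← tb_msk' (r 6) q, ← h, tb_msk']; exact hq4
    have h5 := hr.quad 0 4 q 6 (Ne.symm hq) (by decide) r04 hq4 (by rw [hr.symm]; exact hq6)
    rw [r06] at h5
    exact absurd h5 (by simp)
  obtain ⟨t, ht, t1, t2⟩ := nf3 _ m4 _ m6 hne
  obtain ⟨k1, k2, k3, k4, k5⟩ := t3_ok t ht
  obtain ⟨σ, hσ, hσ2⟩ := k1.ex
  have e0 : σ 0 = 0 := by rw [hσ2]; exact k2
  have e4 : σ 4 = 4 := by rw [hσ2]; exact k3
  have e6 : σ 6 = 6 := by rw [hσ2]; exact k4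
  have hr' := hr.pull hσ
  refine Col.of_pull hσ ?_
  have q0 : msk (pull r σ 0) = 80 := by
    refine msk_eq (by norm_num) fun b => ?_
    change r (σ 0) (σ b) = _
    rw [e0, ← tb_msk' (r 0) (σ b), h0, hσ2]
    exact (k5 b).1
  have hlt : t.1.2.1 < 4096 ∧ t.1.2.2 < 4096 := by
    have : ∀ p ∈ [((5, 9) : Nat × Nat), (5, 257), (257, 5), (257, 513), (257, 1025)],
      p.1 < 4096 ∧ p.2 < 4096 := by decide
    exact this _ t2
  have q4 : msk (pull r σ 4) = t.1.2.1 := by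
    refine msk_eq hlt.1 fun b => ?_
    change r (σ 4) (σ b) = _
    rw [e4, ← tb_msk' (r 4) (σ b), hσ2, ← (k5 b).2.1, t1]
  have q6 : msk (pull r σ 6) = t.1.2.2 := by
    refine msk_eq hlt.2 fun b => ?_
    change r (σ 6) (σ b) = _
    rw [e6, ← tb_msk' (r 6) (σ b), hσ2, ← (k5 b).2.2, t1]
  have h2' : ∀ a, cnt (msk (pull r σ a)) = 2 := fun a => by rw [cnt_pull]; exact h2 _
  simp only [List.mem_cons, List.not_mem_nil, or_false] at t2
  rcases t2 with t2 | t2 | t2 | t2 | t2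
  · rw [t2] at q4 q6
    exact col_of_go hr' tabA (hP _ h2') (agree3 q0 q4 q6) runA1
  · rw [t2] at q4 q6
    exact col_of_go hr' tabA (hP _ h2') (agree3 q0 q4 q6) runA2
  · rw [t2] at q4 q6
    exact col_of_go hr' tabA (hP _ h2') (agree3 q0 q4 q6) runA2p
  · rw [t2] at q4 q6
    exact col_of_go hr' tabA (hP _ h2') (agree3 q0 q4 q6) runA3
  · rw [t2] at q4 q6
    exact col_of_go hr' tabA (hP _ h2') (agree3 q0 q4 q6) runA4

/-- **Every structure has a colouring.** -/
theorem fin_col {r : Fin 12 → Fin 12 → Bool} (hr : Good r) : Col r := by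
  by_cases hC : ∃ v, cnt (msk (r v)) ≠ 2
  · obtain ⟨v, hv⟩ := hC
    obtain ⟨σ, hσ, h0⟩ := norm1 hr v
    refine Col.of_pull hσ ?_
    have hr1 := hr.pull hσ
    obtain ⟨τ, hτ, _, n, hn, h1, _⟩ := norm0 hr1
    refine Col.of_pull hτ ?_
    rw [h1 (by rw [cnt_pull, h0]; exact hv)] at hn
    exact col_of_go (hr1.pull hτ) tabC (fun _ => rfl) (agree1 hn) runC
  · push Not at hC
    by_cases hA : ∃ v, sameT (msk (r v)) = true
    · obtain ⟨v, hv⟩ := hA
      obtain ⟨σ, hσ, h0⟩ := norm1 hr v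
      refine Col.of_pull hσ ?_
      have hr1 := hr.pull hσ
      obtain ⟨τ, hτ, _, n, hn, _, h1, _⟩ := norm0 hr1
      refine Col.of_pull hτ ?_
      rw [h1 (by rw [cnt_pull]; exact hC _) (by rw [sameT_pull hσ, h0]; exact hv)] at hn
      exact colA (hr1.pull hτ) (fun a => by rw [cnt_pull, cnt_pull]; exact hC _) hn
    · push Not at hA
      obtain ⟨τ, hτ, _, n, hn, _, _, h1⟩ := norm0 hr
      refine Col.of_pull hτ ?_
      rw [h1 (hC _) (by simpa using hA 0)] at hn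
      refine col_of_go (hr.pull hτ) tabB (fun a => ?_) (agree1 hn) runB
      change (Nat.beq (cnt (msk (pull r τ a))) 2 && !(sameT (msk (pull r τ a)))) = true
      rw [cnt_pull, sameT_pull hτ, (beq_iff _ _).2 (hC _)]
      simpa using hA (τ a)

end Pool.T9h45.MM
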