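import Pool.Agent.T9h45.MM.FinCol
import Pool.Agent.N399.TB.Sep4

set_option autoImplicit false
set_option linter.unusedSectionVars false

/-! # Three trees with twelve leaves: there is a flow -/

namespace Pool.T9h45.MM

open Finset Pool.Agent.TH462.T4 Pool.Agent.TH676.T4 Pool.Agent.TH497.T4 Pool.Agent.N399.TB

variable {V E : Type} [Fintype V] [DecidableEq V] [Fintype E] [DecidableEq E]

/-- the centre of a leaf -/
def cen (a : Fin 12) : Fin 6 := ⟨a.val / 2, by omega⟩
/-- the other centre of the tree -/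
def mate : Fin 6 → Fin 6 := ![1, 0, 3, 2, 5, 4]
def lf0 (u : Fin 6) : Fin 12 := ⟨2 * u.val, by omega⟩
def lf1 (u : Fin 6) : Fin 12 := ⟨2 * u.val + 1, by omega⟩

theorem mate_mate : ∀ u, mate (mate u) = u := by decide
theorem mate_ne : ∀ u, mate u ≠ u := by decide
theorem ex3 : ∀ u : Fin 6, ∃ i : Fin 3, u = ![0, 2, 4] i ∨ mate u = ![0, 2, 4] i := by decide
theorem cen_lf0 : ∀ u, cen (lf0 u) = u := by decide
theorem cen_lf1 : ∀ u, cen (lf1 u) = u := by decide
theorem lf_ne : ∀ u, lf0 u ≠ lf1 u := by decide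
theorem cen_eq : ∀ a u, cen a = u ↔ (a = lf0 u ∨ a = lf1 u) := by decide
theorem cen_iff : ∀ a b : Fin 12, cen a = cen b ↔ a.val / 2 = b.val / 2 := by decide
theorem tree_iff : ∀ a b : Fin 12, a.val / 4 = b.val / 4 ↔ (cen a = cen b ∨ cen b = mate (cen a)) := by
  decide

/-- adjacent vertices -/
def A (src dst : E → V) (x y : V) : Prop := ∃ e, JV src dst e x y

theorem A.symm {src dst : E → V} {x y : V} (h : A src dst x y) : A src dst y x := by
  obtain ⟨e, h | h⟩ := h
  · exact ⟨e, Or.inr h⟩
  · exact ⟨e, Or.inl h⟩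

theorem smp1 {src dst : E → V} (hM : MinCx src dst) {e e' : E} {x y : V} (hxy : x ≠ y)
    (h : JV src dst e x y) (h' : JV src dst e' x y) : e = e' :=
  Pool.Agent.TH169.P5.smp V E src dst hM e e' x y hxy h h'

theorem jv_symm {src dst : E → V} {e : E} {x y : V} (h : JV src dst e x y) : JV src dst e y x :=
  h.elim Or.inr Or.inl

open Classical in
/-- the neighbours of a vertex -/
noncomputable def nbr (src dst : E → V) (v : V) : Finset V :=
  univ.filter (fun w => w ≠ v ∧ A src dst v w)

theorem mem_nbr {src dst : E → V} {v w : V} : w ∈ nbr src dst v ↔ w ≠ v ∧ A src dst v w := by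
  simp [nbr]

/-- the labelled structure -/
structure St (src dst : E → V) (L : Fin 12 → V) (X : Fin 6 → V) : Prop where
  injL : Function.Injective L
  injX : Function.Injective X
  ne : ∀ a u, L a ≠ X u
  cov : ∀ v, Nis src dst v → (∃ a, v = L a) ∨ ∃ u, v = X u
  nb : ∀ u w, A src dst (X u) w → X u ≠ w → w = X (mate u) ∨ w = L (lf0 u) ∨ w = L (lf1 u)
  adj1 : ∀ u, A src dst (X u) (X (mate u))
  adj2 : ∀ a, A src dst (X (cen a)) (L a)
  odd : ∀ a, Odd (nbr src dst (L a)).card ∧ 3 ≤ (nbr src dst (L a)).card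

open Classical in
/-- the adjacency of the leaves -/
noncomputable def rr (src dst : E → V) (L : Fin 12 → V) (a b : Fin 12) : Bool :=
  decide (a ≠ b ∧ A src dst (L a) (L b))

open Classical in
theorem rr_iff {src dst : E → V} {L : Fin 12 → V} {a b : Fin 12} :
    rr src dst L a b = true ↔ a ≠ b ∧ A src dst (L a) (L b) := by
  unfold rr; exact decide_eq_true_iff

theorem rr_false {src dst : E → V} {L : Fin 12 → V} {a b : Fin 12}
    (h : a ≠ b → A src dst (L a) (L b) → False) : rr src dst L a b = false := by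
  rw [← Bool.not_eq_true, rr_iff]
  exact fun h1 => h h1.1 h1.2

theorem St.nisL {src dst : E → V} {L : Fin 12 → V} {X : Fin 6 → V} (h : St src dst L X)
    (a : Fin 12) : Nis src dst (L a) := by
  obtain ⟨e, he⟩ := h.adj2 a
  exact Pool.Agent.TH169.P5.JV.nisR he (h.ne a _).symm

theorem St.nisX {src dst : E → V} {L : Fin 12 → V} {X : Fin 6 → V} (h : St src dst L X)
    (u : Fin 6) : Nis src dst (X u) := by
  obtain ⟨e, he⟩ := h.adj1 u
  exact Pool.Agent.TH169.P5.JV.nisL he (h.injX.ne (mate_ne u).symm)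

theorem St.cenOf {src dst : E → V} {L : Fin 12 → V} {X : Fin 6 → V} (h : St src dst L X)
    {a : Fin 12} {u : Fin 6} (hA : A src dst (X u) (L a)) : cen a = u := by
  rcases h.nb u (L a) hA (h.ne a u).symm with h1 | h1 | h1
  · exact absurd h1 (h.ne _ _)
  · exact (cen_eq _ _).2 (Or.inl (h.injL h1))
  · exact (cen_eq _ _).2 (Or.inr (h.injL h1))

theorem St.good {src dst : E → V} (hM : MinCx src dst) {L : Fin 12 → V} {X : Fin 6 → V}
    (h : St src dst L X) : Good (rr src dst L) where
  symm a b := by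
    rw [Bool.eq_iff_iff, rr_iff, rr_iff]
    exact ⟨fun k => ⟨k.1.symm, k.2.symm⟩, fun k => ⟨k.1.symm, k.2.symm⟩⟩
  tree a b hab := by
    refine rr_false fun hne hA => ?_
    rcases (tree_iff a b).1 hab with h1 | h1
    · exact Pool.Agent.TH169.P5.tri V E src dst hM (L a) (L b) (X (cen a)) (h.injL.ne hne) (h.ne _ _)
        (h.ne _ _) hA (by have := (h.adj2 b).symm; rw [h1]; exact this) (h.adj2 a)
    · exact Pool.Agent.TH169.P5.quad V E src dst hM (L a) (L b) (X (cen b)) (X (cen a)) (h.injL.ne hne)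
        (h.ne _ _) (h.ne _ _) (h.ne _ _) (h.ne _ _)
        (h.injX.ne (by rw [h1]; exact mate_ne _)) hA (h.adj2 b).symm
        (by rw [h1]; exact (h.adj1 (cen a)).symm) (h.adj2 a)
  unit a b c hbc hu hab := by
    refine rr_false fun hac hA => ?_
    rw [rr_iff] at hab
    have h1 : cen b = cen c := (cen_iff b c).2 hu
    exact Pool.Agent.TH169.P5.quad V E src dst hM (L a) (L b) (X (cen b)) (L c) (h.injL.ne hab.1)
      (h.ne _ _) (h.injL.ne hac) (h.ne _ _) (h.injL.ne hbc) (h.ne _ _).symm hab.2
      (h.adj2 b).symm (by rw [h1]; exact h.adj2 c) hA.symm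
  tri a b c hab hbc := by
    refine rr_false fun hac hA => ?_
    rw [rr_iff] at hab hbc
    exact Pool.Agent.TH169.P5.tri V E src dst hM (L a) (L b) (L c) (h.injL.ne hab.1) (h.injL.ne hac)
      (h.injL.ne hbc.1) hab.2 hbc.2 hA.symm
  quad a b c d hac hbd hab hbc hcd := by
    refine rr_false fun had hA => ?_
    rw [rr_iff] at hab hbc hcd
    exact Pool.Agent.TH169.P5.quad V E src dst hM (L a) (L b) (L c) (L d) (h.injL.ne hab.1) (h.injL.ne hac)
      (h.injL.ne had) (h.injL.ne hbc.1) (h.injL.ne hbd) (h.injL.ne hcd.1) hab.2 hbc.2 hcd.2 hA.symm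
  deg a := by
    classical
    have h1 : nbr src dst (L a) = insert (X (cen a))
        ((univ.filter (fun b => rr src dst L a b = true)).image L) := by
      ext w
      rw [mem_nbr, mem_insert, mem_image]
      constructor
      · rintro ⟨hw, hA⟩
        have hnw : Nis src dst w := by
          obtain ⟨e, he⟩ := hA
          exact Pool.Agent.TH169.P5.JV.nisR he (Ne.symm hw)
        rcases h.cov w hnw with ⟨b, rfl⟩ | ⟨u, rfl⟩
        · refine Or.inr ⟨b, ?_, rfl⟩
          rw [mem_filter, rr_iff]
          exact ⟨mem_univ _, fun hab => hw (by rw [hab]), hA⟩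
        · left
          rw [h.cenOf hA.symm]
      · rintro (rfl | ⟨b, hb, rfl⟩)
        · exact ⟨(h.ne _ _).symm, (h.adj2 a).symm⟩
        · rw [mem_filter, rr_iff] at hb
          exact ⟨h.injL.ne hb.2.1.symm, hb.2.2⟩
    have h2 := h.odd a
    rw [h1, card_insert_of_notMem (by
      rw [mem_image]
      rintro ⟨b, _, hb⟩
      exact h.ne _ _ hb), card_image_of_injective _ h.injL] at h2
    refine ⟨?_, by omega⟩
    have h3 := h2.1
    rw [Nat.odd_add_one, Nat.not_odd_iff_even] at h3
    exact h3
  cut s hs1 hs2 := by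
    classical
    by_contra hno
    push Not at hno
    have hs1' : ∀ a b, cen a = cen b → s a = s b := fun a b hab => hs1 a b ((cen_iff a b).1 hab)
    set Y : Finset V := univ.filter (fun v => (∃ a, v = L a ∧ s a = true) ∨
      ∃ u, v = X u ∧ s (lf0 u) = true) with hY
    have memL : ∀ a, L a ∈ Y ↔ s a = true := by
      intro a
      rw [hY, mem_filter]
      constructor
      · rintro ⟨-, ⟨b, hb, hsb⟩ | ⟨u, hu, _⟩⟩
        · rw [h.injL hb]; exact hsb
        · exact absurd hu (h.ne _ _)
      · exact fun hs => ⟨mem_univ _, Or.inl ⟨a, rfl, hs⟩⟩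
    have memX : ∀ u, X u ∈ Y ↔ s (lf0 u) = true := by
      intro u
      rw [hY, mem_filter]
      constructor
      · rintro ⟨-, ⟨b, hb, hsb⟩ | ⟨u', hu, hs⟩⟩
        · exact absurd hb.symm (h.ne _ _)
        · rw [h.injX hu]; exact hs
      · exact fun hs => ⟨mem_univ _, Or.inr ⟨u, rfl, hs⟩⟩
    choose g hg using fun i : Fin 3 => h.adj1 (![0, 2, 4] i)
    have hcr : crs src dst Y ⊆ univ.image g := by
      intro e he
      have hne : src e ≠ dst e := by
        intro h1
        rw [mem_crs, h1] at he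
        exact he Iff.rfl
      -- an end in `Y` and an end outside
      have key : ∀ p q, JV src dst e p q → p ≠ q → p ∈ Y → q ∉ Y → e ∈ univ.image g := by
        intro p q hj hpq hp hq
        have np := Pool.Agent.TH169.P5.JV.nisL hj hpq
        have nq := Pool.Agent.TH169.P5.JV.nisR hj hpq
        rcases h.cov p np with ⟨a, rfl⟩ | ⟨u, rfl⟩ <;> rcases h.cov q nq with ⟨b, rfl⟩ | ⟨w, rfl⟩
        · rw [memL] at hp hq
          exact absurd (rr_iff.2 ⟨fun hab => hpq (by rw [hab]), e, hj⟩)
            (hno a b hp (by simpa using hq))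
        · rw [memL] at hp
          rw [memX] at hq
          have h1 := h.cenOf (a := a) (u := w) ⟨e, jv_symm hj⟩
          exact absurd (by rw [← hp]; exact hs1' _ _ (by rw [cen_lf0, h1])) hq
        · rw [memX] at hp
          rw [memL] at hq
          have h1 := h.cenOf (a := b) (u := u) ⟨e, hj⟩
          exact absurd (by rw [← hp]; exact hs1' _ _ (by rw [cen_lf0, h1])) hq
        · rcases h.nb u (X w) ⟨e, hj⟩ hpq with h1 | h1 | h1
          · have h2 : w = mate u := h.injX h1
            subst h2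
            obtain ⟨i, h4 | h4⟩ := ex3 u
            · rw [mem_image]
              refine ⟨i, mem_univ _, ?_⟩
              rw [h4] at hj hpq
              exact (smp1 hM hpq hj (hg i)).symm
            · rw [mem_image]
              refine ⟨i, mem_univ _, ?_⟩
              have hgi := hg i
              rw [← h4, mate_mate] at hgi
              exact smp1 hM hpq.symm hgi (jv_symm hj)
          · exact absurd h1.symm (h.ne _ _)
          · exact absurd h1.symm (h.ne _ _)
      rw [mem_crs] at he
      by_cases h1 : src e ∈ Y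
      · exact key _ _ (Or.inl ⟨rfl, rfl⟩) hne h1 (by tauto)
      · exact key _ _ (Or.inr ⟨rfl, rfl⟩) hne.symm (by tauto) h1
    have h3 : (crs src dst Y).card ≤ 3 :=
      (card_le_card hcr).trans (card_image_le.trans (by simp))
    -- centres on both sides
    have hu : ∃ u w, s (lf0 u) = true ∧ s (lf0 w) = false := by
      have h4 := hs2 0 2 (by decide) (by decide)
      cases h5 : s 0
      · rw [h5] at h4
        exact ⟨1, 0, by change s 2 = true; simpa using h4.symm, h5⟩
      · rw [h5] at h4
        exact ⟨0, 1, h5, by change s 2 = false; simpa using h4.symm⟩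
    obtain ⟨u, w, hu, hw⟩ := hu
    have hu1 : s (lf1 u) = true := by rw [← hu]; exact hs1' _ _ (by rw [cen_lf0, cen_lf1])
    have hw1 : s (lf1 w) = false := by rw [← hw]; exact hs1' _ _ (by rw [cen_lf0, cen_lf1])
    have h5 := cut5 hM (S := Y) (x := X u) (y := L (lf0 u)) (z := L (lf1 u)) (u := X w)
      (v := L (lf0 w)) (w := L (lf1 w)) ((memX _).2 hu) ((memL _).2 hu) ((memL _).2 hu1)
      (h.ne _ _).symm (h.ne _ _).symm (h.injL.ne (lf_ne u)) (h.nisX _) (h.nisL _) (h.nisL _)
      (by rw [memX, hw]; simp) (by rw [memL, hw]; simp) (by rw [memL, hw1]; simp)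
      (h.ne _ _).symm (h.ne _ _).symm (h.injL.ne (lf_ne w)) (h.nisX _) (h.nisL _) (h.nisL _)
    omega

/-! ## the flow -/

theorem kself : ∀ x : ZMod 2 × ZMod 2, x + x = 0 := by decide

/-- boundaries of symmetric functions -/
theorem bd_sym {src dst : E → V} (hM : MinCx src dst) (w : V → V → ZMod 2 × ZMod 2)
    (h1 : ∀ x y, w x y = w y x) (h3 : ∀ x y, x ≠ y → ¬ A src dst x y → w x y = 0)
    (h2 : ∀ x, w x x = 0) (v : V) : bd src dst (fun e => w (src e) (dst e)) v = ∑ y, w v y := by
  classical
  have key : ∀ y, w v y = ∑ e, if JV src dst e v y ∧ v ≠ y then w v y else 0 := by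
    intro y
    by_cases hvy : v = y
    · subst hvy
      rw [h2]
      simp
    · by_cases hA : A src dst v y
      · obtain ⟨e, he⟩ := hA
        rw [sum_eq_single e]
        · rw [if_pos ⟨he, hvy⟩]
        · intro e' _ hne
          rw [if_neg]
          rintro ⟨he', _⟩
          exact hne (smp1 hM hvy he' he)
        · intro h; exact absurd (mem_univ _) h
      · rw [h3 v y hvy hA]
        simp
  rw [sum_congr rfl fun y _ => key y, sum_comm]
  unfold bd
  refine sum_congr rfl fun e _ => ?_
  change (if src e = v then w (src e) (dst e) else 0) +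
    (if dst e = v then w (src e) (dst e) else 0) = _
  have hs : ∀ z, (∀ y, (JV src dst e v y ∧ v ≠ y) ↔ (y = z ∧ v ≠ z)) →
      (∑ y, if JV src dst e v y ∧ v ≠ y then w v y else 0) = if v ≠ z then w v z else 0 := by
    intro z hz
    rw [sum_eq_single z]
    · by_cases h : v = z
      · rw [if_neg (fun k => k.2 h), if_neg (fun k => k h)]
      · rw [if_pos ((hz z).2 ⟨rfl, h⟩), if_pos h]
    · intro y _ hy
      rw [if_neg]
      intro k
      exact hy ((hz y).1 k).1
    · intro h; exact absurd (mem_univ _) h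
  by_cases e1 : src e = v
  · rw [hs (dst e) (fun y => by
      constructor
      · rintro ⟨⟨k1, k2⟩ | ⟨k1, k2⟩, k3⟩
        · exact ⟨k2.symm, fun k => k3 (k.trans k2)⟩
        · exact absurd (e1.symm.trans k1) k3
      · rintro ⟨rfl, k⟩
        exact ⟨Or.inl ⟨e1, rfl⟩, k⟩)]
    rw [if_pos e1, e1]
    by_cases e2 : dst e = v
    · rw [if_pos e2, e2, h2]; simp
    · rw [if_neg e2, if_pos (Ne.symm e2), add_zero]
  · rw [if_neg e1, zero_add]
    by_cases e2 : dst e = v
    · rw [hs (src e) (fun y => by
        constructor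
        · rintro ⟨⟨k1, k2⟩ | ⟨k1, k2⟩, k3⟩
          · exact absurd k1 e1
          · exact ⟨k1.symm, fun k => k3 (k.trans k1)⟩
        · rintro ⟨rfl, k⟩
          exact ⟨Or.inr ⟨rfl, e2⟩, k⟩)]
      rw [if_pos e2, if_pos (Ne.symm e1), h1, e2]
    · rw [if_neg e2]
      symm
      refine sum_eq_zero fun y _ => if_neg ?_
      rintro ⟨⟨k1, _⟩ | ⟨_, k2⟩, _⟩
      · exact e1 k1
      · exact e2 k2

/-- the three parts of the flow -/
def w1 (L : Fin 12 → V) (c : Fin 12 → Fin 12 → ZMod 2 × ZMod 2) (x y : V) : ZMod 2 × ZMod 2 :=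
  ∑ a, ∑ b, if x = L a ∧ y = L b then c a b else 0

def w2 (L : Fin 12 → V) (X : Fin 6 → V) (d : Fin 12 → ZMod 2 × ZMod 2) (x y : V) :
    ZMod 2 × ZMod 2 :=
  ∑ a, ((if x = L a ∧ y = X (cen a) then d a else 0) + if x = X (cen a) ∧ y = L a then d a else 0)

def w3 (X : Fin 6 → V) (d : Fin 12 → ZMod 2 × ZMod 2) (x y : V) : ZMod 2 × ZMod 2 :=
  ∑ u, if x = X u ∧ y = X (mate u) then d (lf0 u) + d (lf1 u) else 0

theorem sum_fib (d : Fin 12 → ZMod 2 × ZMod 2) (u : Fin 6) :
    (∑ a, if cen a = u then d a else 0) = d (lf0 u) + d (lf1 u) := by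
  rw [← sum_filter]
  have : univ.filter (fun a => cen a = u) = {lf0 u, lf1 u} := by
    ext a
    rw [mem_filter, mem_insert, mem_singleton, cen_eq]
    simp
  rw [this, sum_pair (lf_ne u)]

theorem mateE : ∀ (u : Fin 6) (a a' b b' : Fin 12), a = lf0 u → a' = lf1 u → b = lf0 (mate u) →
    b' = lf1 (mate u) → a ≠ a' ∧ b ≠ b' ∧ a.val / 2 = a'.val / 2 ∧ b.val / 2 = b'.val / 2 ∧
    a.val / 4 = b.val / 4 := by
  rintro u _ _ _ _ rfl rfl rfl rfl
  revert u
  decide

theorem sand (p : Prop) [Decidable p] (z : V) (t : ZMod 2 × ZMod 2) :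
    (∑ y, if p ∧ y = z then t else 0) = if p then t else 0 := by
  rw [sum_eq_single z]
  · by_cases hp : p
    · rw [if_pos ⟨hp, rfl⟩, if_pos hp]
    · rw [if_neg (fun k => hp k.1), if_neg hp]
  · intro y _ hy
    exact if_neg fun k => hy k.2
  · intro k; exact absurd (mem_univ _) k

/-- **The labelled structure has a flow.** -/
theorem St.flow {src dst : E → V} (hM : MinCx src dst) {L : Fin 12 → V} {X : Fin 6 → V}
    (h : St src dst L X) : False := by
  classical
  obtain ⟨c, d, c1, c2, c3, c4, c5, c6, c7⟩ := fin_col (h.good hM)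
  have hg : ∀ u, d (lf0 u) + d (lf1 u) = d (lf0 (mate u)) + d (lf1 (mate u)) := by
    intro u
    obtain ⟨k1, k2, k3, k4, k5⟩ := mateE u _ _ _ _ rfl rfl rfl rfl
    exact c7 _ _ _ _ k1 k2 k3 k4 k5
  have hg0 : ∀ u, d (lf0 u) + d (lf1 u) ≠ 0 := by
    intro u hu
    have hz : ∀ x y : ZMod 2 × ZMod 2, x + y = 0 → x = y := by decide
    obtain ⟨k1, _, k3, _, _⟩ := mateE u _ _ _ _ rfl rfl rfl rfl
    exact c6 _ _ k1 k3 (hz _ _ hu)
  set w : V → V → ZMod 2 × ZMod 2 := fun x y => w1 L c x y + (w2 L X d x y + w3 X d x y) with hw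
  have s1 : ∀ x y, w1 L c x y = w1 L c y x := by
    intro x y
    unfold w1
    rw [sum_comm]
    refine sum_congr rfl fun a _ => sum_congr rfl fun b _ => ?_
    rw [c1 b a]
    exact if_congr and_comm rfl rfl
  have s2 : ∀ x y, w2 L X d x y = w2 L X d y x := by
    intro x y
    unfold w2
    refine sum_congr rfl fun a _ => ?_
    rw [add_comm]
    exact congrArg₂ (· + ·) (if_congr and_comm rfl rfl) (if_congr and_comm rfl rfl)
  have s3 : ∀ x y, w3 X d x y = w3 X d y x := by
    intro x y
    unfold w3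
    rw [← Equiv.sum_comp (Function.Involutive.toPerm mate mate_mate)
      (fun u => if y = X u ∧ x = X (mate u) then d (lf0 u) + d (lf1 u) else 0)]
    refine sum_congr rfl fun u _ => ?_
    change _ = if y = X (mate u) ∧ x = X (mate (mate u)) then
      d (lf0 (mate u)) + d (lf1 (mate u)) else 0
    rw [mate_mate, ← hg]
    exact if_congr and_comm rfl rfl
  -- values
  have hLX : ∀ a u, L a = X u ↔ False := fun a u => ⟨fun k => h.ne a u k, False.elim⟩
  have hXL : ∀ a u, X u = L a ↔ False := fun a u => ⟨fun k => h.ne a u k.symm, False.elim⟩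
  have vLL : ∀ a b, w (L a) (L b) = c a b := by
    intro a b
    have e1 : w1 L c (L a) (L b) = c a b := by
      unfold w1
      rw [sum_eq_single a, sum_eq_single b]
      · rw [if_pos ⟨rfl, rfl⟩]
      · intro b' _ hb
        exact if_neg fun k => hb (h.injL k.2).symm
      · intro k; exact absurd (mem_univ _) k
      · intro a' _ ha
        exact sum_eq_zero fun b' _ => if_neg fun k => ha (h.injL k.1).symm
      · intro k; exact absurd (mem_univ _) k
    have e2 : w2 L X d (L a) (L b) = 0 := by
      unfold w2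
      exact sum_eq_zero fun a' _ => by
        rw [if_neg (fun k => h.ne _ _ k.2), if_neg (fun k => h.ne _ _ k.1), add_zero]
    have e3 : w3 X d (L a) (L b) = 0 := by
      unfold w3
      exact sum_eq_zero fun a' _ => if_neg fun k => h.ne _ _ k.1
    change w1 L c _ _ + (w2 L X d _ _ + w3 X d _ _) = _
    rw [e1, e2, e3, add_zero, add_zero]
  have vLX : ∀ a, w (L a) (X (cen a)) = d a := by
    intro a
    have e1 : w1 L c (L a) (X (cen a)) = 0 := by
      unfold w1
      exact sum_eq_zero fun a' _ => sum_eq_zero fun b' _ => if_neg fun k => h.ne _ _ k.2.symm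
    have e2 : w2 L X d (L a) (X (cen a)) = d a := by
      unfold w2
      rw [sum_eq_single a]
      · rw [if_pos ⟨rfl, rfl⟩, if_neg (fun k => h.ne _ _ k.1), add_zero]
      · intro a' _ ha
        rw [if_neg (fun k => ha (h.injL k.1).symm), if_neg (fun k => h.ne _ _ k.1), add_zero]
      · intro k; exact absurd (mem_univ _) k
    have e3 : w3 X d (L a) (X (cen a)) = 0 := by
      unfold w3
      exact sum_eq_zero fun a' _ => if_neg fun k => h.ne _ _ k.1
    change w1 L c _ _ + (w2 L X d _ _ + w3 X d _ _) = _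
    rw [e1, e2, e3, add_zero, zero_add]
  have vXX : ∀ u, w (X u) (X (mate u)) = d (lf0 u) + d (lf1 u) := by
    intro u
    have e1 : w1 L c (X u) (X (mate u)) = 0 := by
      unfold w1
      exact sum_eq_zero fun a' _ => sum_eq_zero fun b' _ => if_neg fun k => h.ne _ _ k.1.symm
    have e2 : w2 L X d (X u) (X (mate u)) = 0 := by
      unfold w2
      exact sum_eq_zero fun a' _ => by
        rw [if_neg (fun k => h.ne _ _ k.1.symm), if_neg (fun k => h.ne _ _ k.2.symm), add_zero]
    have e3 : w3 X d (X u) (X (mate u)) = d (lf0 u) + d (lf1 u) := by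
      unfold w3
      rw [sum_eq_single u]
      · rw [if_pos ⟨rfl, rfl⟩]
      · intro u' _ hu
        exact if_neg fun k => hu (h.injX k.1).symm
      · intro k; exact absurd (mem_univ _) k
    change w1 L c _ _ + (w2 L X d _ _ + w3 X d _ _) = _
    rw [e1, e2, e3, zero_add, zero_add]
  have hsym : ∀ x y, w x y = w y x := by
    intro x y
    change w1 L c x y + (w2 L X d x y + w3 X d x y) = w1 L c y x + (w2 L X d y x + w3 X d y x)
    rw [s1, s2, s3]
  -- `w` vanishes unless there is an edge
  have hz : ∀ x y, w x y ≠ 0 → x ≠ y ∧ A src dst x y := by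
    intro x y hne
    by_contra hcon
    apply hne
    have e1 : w1 L c x y = 0 := by
      unfold w1
      refine sum_eq_zero fun a _ => sum_eq_zero fun b _ => ?_
      by_cases k : x = L a ∧ y = L b
      · rw [if_pos k]
        apply c3
        rw [← Bool.not_eq_true, rr_iff]
        rintro ⟨k1, k2⟩
        exact hcon ⟨by rw [k.1, k.2]; exact h.injL.ne k1, by rw [k.1, k.2]; exact k2⟩
      · exact if_neg k
    have e2 : w2 L X d x y = 0 := by
      unfold w2
      refine sum_eq_zero fun a _ => ?_
      rw [if_neg, if_neg, add_zero]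
      · rintro ⟨k1, k2⟩
        exact hcon ⟨by rw [k1, k2]; exact (h.ne _ _).symm, by rw [k1, k2]; exact h.adj2 a⟩
      · rintro ⟨k1, k2⟩
        exact hcon ⟨by rw [k1, k2]; exact h.ne _ _, by rw [k1, k2]; exact (h.adj2 a).symm⟩
    have e3 : w3 X d x y = 0 := by
      unfold w3
      refine sum_eq_zero fun u _ => if_neg ?_
      rintro ⟨k1, k2⟩
      exact hcon ⟨by rw [k1, k2]; exact h.injX.ne (mate_ne u).symm, by rw [k1, k2]; exact h.adj1 u⟩
    change w1 L c x y + (w2 L X d x y + w3 X d x y) = 0
    rw [e1, e2, e3, add_zero, add_zero]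
  have hsum : ∀ v, ∑ y, w v y = 0 := by
    intro v
    have f1 : ∑ y, w1 L c v y = ∑ a, if v = L a then d a else 0 := by
      unfold w1
      rw [sum_comm]
      refine sum_congr rfl fun a _ => ?_
      rw [sum_comm, sum_congr rfl fun b _ => sand (v = L a) (L b) (c a b)]
      by_cases hv : v = L a
      · simp only [if_pos hv]
        exact c4 a
      · simp only [if_neg hv]
        exact sum_const_zero
    have f2 : ∑ y, w2 L X d v y = (∑ a, if v = L a then d a else 0) +
        ∑ a, if v = X (cen a) then d a else 0 := by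
      unfold w2
      rw [sum_comm, ← sum_add_distrib]
      refine sum_congr rfl fun a _ => ?_
      rw [sum_add_distrib, sand, sand]
    have f3 : ∑ y, w3 X d v y = ∑ u, if v = X u then d (lf0 u) + d (lf1 u) else 0 := by
      unfold w3
      rw [sum_comm]
      refine sum_congr rfl fun u _ => ?_
      rw [sand]
    have f4 : (∑ a, if v = X (cen a) then d a else 0) =
        ∑ u, if v = X u then d (lf0 u) + d (lf1 u) else 0 := by
      by_cases hv : ∃ u, v = X u
      · obtain ⟨u, rfl⟩ := hv
        have k1 : ∀ a, (if X u = X (cen a) then d a else 0) = if cen a = u then d a else 0 :=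
          fun a => if_congr ⟨fun k => (h.injX k).symm, fun k => by rw [k]⟩ rfl rfl
        have k2 : ∀ u', (if X u = X u' then d (lf0 u') + d (lf1 u') else 0) =
            if u = u' then d (lf0 u') + d (lf1 u') else 0 :=
          fun u' => if_congr ⟨fun k => h.injX k, fun k => by rw [k]⟩ rfl rfl
        rw [sum_congr rfl fun a _ => k1 a, sum_congr rfl fun a _ => k2 a, sum_fib,
          sum_ite_eq, if_pos (mem_univ _)]
      · push Not at hv
        rw [sum_eq_zero fun a _ => if_neg (hv _), sum_eq_zero fun a _ => if_neg (hv _)]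
    change ∑ y, (w1 L c v y + (w2 L X d v y + w3 X d v y)) = 0
    rw [sum_add_distrib, sum_add_distrib, f1, f2, f3, f4]
    have : ∀ x y : ZMod 2 × ZMod 2, x + (x + y + y) = 0 := by decide
    exact this _ _
  refine hM.nf ⟨fun e => if src e = dst e then (1, 0) else w (src e) (dst e), fun v => ?_,
    fun e he => absurd he (notMem_empty _), fun e _ _ => ?_⟩
  · rw [bd_congr src dst _ (fun e => w (src e) (dst e)) (fun e he => if_neg he) v,
      bd_sym hM w hsym (fun x y hxy hA => ?_) (fun x => ?_) v]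
    · exact hsum v
    · by_contra hne
      exact hA (hz x y hne).2
    · by_contra hne
      exact (hz x x hne).1 rfl
  · change (if src e = dst e then _ else _) ≠ _
    by_cases he : src e = dst e
    · rw [if_pos he]; decide
    · rw [if_neg he]
      have hj : JV src dst e (src e) (dst e) := Or.inl ⟨rfl, rfl⟩
      rcases h.cov (src e) ⟨e, he, Or.inl rfl⟩ with ⟨a, ha⟩ | ⟨u, hu⟩ <;>
        rcases h.cov (dst e) ⟨e, he, Or.inr rfl⟩ with ⟨b, hb⟩ | ⟨u', hu'⟩
      · rw [ha, hb, vLL]
        apply c2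
        rw [rr_iff]
        rw [ha, hb] at hj
        exact ⟨fun k => he (by rw [ha, hb, k]), e, hj⟩
      · rw [ha, hu'] at hj ⊢
        rw [← h.cenOf (a := a) (u := u') ⟨e, jv_symm hj⟩, vLX]
        exact c5 a
      · rw [hu, hb] at hj ⊢
        rw [hsym, ← h.cenOf (a := b) (u := u) ⟨e, hj⟩, vLX]
        exact c5 b
      · rw [hu, hu'] at hj he ⊢
        rcases h.nb u (X u') ⟨e, hj⟩ he with k | k | k
        · rw [k, vXX]
          exact hg0 u
        · exact absurd k.symm (h.ne _ _)
        · exact absurd k.symm (h.ne _ _)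

end Pool.T9h45.MM
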