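import Pool.Agent.T9h45.MM.Lab
import Pool.Agent.N399.TB.Many

set_option autoImplicit false
set_option linter.unusedSectionVars false

/-! # Six vertices with four attachments -/

namespace Pool.T9h45.MM

open Finset Pool.Agent.TH462.T4 Pool.Agent.TH676.T4 Pool.Agent.TH497.T4 Pool.Agent.N399.TB

variable {V E : Type} [Fintype V] [DecidableEq V] [Fintype E] [DecidableEq E]

theorem nbr_nis {src dst : E → V} {v w : V} (h : w ∈ nbr src dst v) : Nis src dst w := by
  rw [mem_nbr] at h
  obtain ⟨h1, e, he⟩ := h
  exact Pool.Agent.TH169.P5.JV.nisR he (Ne.symm h1)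

theorem nbr_symm {src dst : E → V} {v w : V} (h : w ∈ nbr src dst v) : v ∈ nbr src dst w := by
  rw [mem_nbr] at h ⊢
  exact ⟨h.1.symm, h.2.symm⟩

theorem nbr_card {src dst : E → V} (hM : MinCx src dst) (v : V) :
    (nbr src dst v).card = (crs src dst {v}).card := by
  symm
  refine card_bij (fun e _ => if src e = v then dst e else src e) (fun e he => ?_)
    (fun e he e' he' h => ?_) (fun w hw => ?_)
  · rw [mem_crs, mem_singleton, mem_singleton] at he
    rw [mem_nbr]
    by_cases h1 : src e = v
    · rw [if_pos h1]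
      have h2 : dst e ≠ v := fun h => he ⟨fun _ => h, fun _ => h1⟩
      exact ⟨h2, e, Or.inl ⟨h1, rfl⟩⟩
    · rw [if_neg h1]
      have h2 : dst e = v := by tauto
      exact ⟨h1, e, Or.inr ⟨rfl, h2⟩⟩
  · have key : ∀ e, e ∈ crs src dst {v} → (if src e = v then dst e else src e) ≠ v ∧
        JV src dst e v (if src e = v then dst e else src e) := by
      intro e he
      rw [mem_crs, mem_singleton, mem_singleton] at he
      by_cases h1 : src e = v
      · rw [if_pos h1]
        exact ⟨fun h => he ⟨fun _ => h, fun _ => h1⟩, Or.inl ⟨h1, rfl⟩⟩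
      · rw [if_neg h1]
        exact ⟨h1, Or.inr ⟨rfl, by tauto⟩⟩
    have k1 := key e he
    have k2 := key e' he'
    change (if src e = v then dst e else src e) = (if src e' = v then dst e' else src e') at h
    rw [← h] at k2
    exact smp1 hM k1.1.symm k1.2 k2.2
  · rw [mem_nbr] at hw
    obtain ⟨hwv, e, he⟩ := hw
    rcases he with ⟨h1, h2⟩ | ⟨h1, h2⟩
    · refine ⟨e, ?_, ?_⟩
      · rw [mem_crs, mem_singleton, mem_singleton, h1, h2]
        exact fun h => hwv (h.1 rfl)
      · change (if src e = v then dst e else src e) = w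
        rw [if_pos h1, h2]
    · refine ⟨e, ?_, ?_⟩
      · rw [mem_crs, mem_singleton, mem_singleton, h1, h2]
        exact fun h => hwv (h.2 rfl)
      · change (if src e = v then dst e else src e) = w
        rw [if_neg (by rw [h1]; exact hwv), h1]

theorem nbr_three {src dst : E → V} (hM : MinCx src dst) {v y : V} (hv : Nis src dst v)
    (hy : Nis src dst y) (hyv : y ≠ v) : 3 ≤ (nbr src dst v).card := by
  rw [nbr_card hM]
  exact cut3 hM (mem_singleton_self v) (by simpa using hyv) hv hy

/-- two vertices have at most one common neighbour -/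
theorem nbr_common {src dst : E → V} (hM : MinCx src dst) {x y : V} (hxy : x ≠ y) :
    (nbr src dst x ∩ nbr src dst y).card ≤ 1 := by
  by_contra h
  push Not at h
  obtain ⟨p, hp, q, hq, hpq⟩ := one_lt_card.1 h
  rw [mem_inter, mem_nbr, mem_nbr] at hp hq
  exact Pool.Agent.TH169.P5.quad V E src dst hM x p y q hp.1.1.symm hxy hq.1.1.symm hp.2.1 hpq
    hq.2.1.symm hp.1.2 hp.2.2.symm hq.2.2 hq.1.2.symm

/-- adjacent vertices have no common neighbour -/
theorem nbr_disj {src dst : E → V} (hM : MinCx src dst) {x y : V} (hxy : y ∈ nbr src dst x) :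
    Disjoint (nbr src dst x) (nbr src dst y) := by
  rw [disjoint_left]
  intro p hp hq
  rw [mem_nbr] at hxy hp hq
  exact Pool.Agent.TH169.P5.tri V E src dst hM x y p hxy.1.symm hp.1.symm hq.1.symm hxy.2 hq.2
    hp.2.symm

/-- a tree with two centres and four leaves -/
structure TS (src dst : E → V) (S : Finset V) (x : Fin 2 → V) (l : Fin 4 → V) : Prop where
  injx : Function.Injective x
  injl : Function.Injective l
  ne : ∀ s t, l t ≠ x s
  mx : ∀ s, x s ∈ S
  ml : ∀ t, l t ∈ S
  cov : ∀ v ∈ S, (∃ s, v = x s) ∨ ∃ t, v = l t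
  nb : ∀ s w, w ∈ nbr src dst (x s) → w = x (1 - s) ∨ w = l ⟨2 * s.val, by omega⟩ ∨
    w = l ⟨2 * s.val + 1, by omega⟩
  adj1 : ∀ s, x (1 - s) ∈ nbr src dst (x s)
  adj2 : ∀ t : Fin 4, l t ∈ nbr src dst (x ⟨t.val / 2, by omega⟩)

theorem tree6 {src dst : E → V} (hM : MinCx src dst) {S C : Finset V} (hS : S.card = 6)
    (hC : C ⊆ S) (hC4 : C.card = 4) (hnis : ∀ v ∈ S, Nis src dst v)
    (hin : ∀ v ∈ S, v ∉ C → ∀ w ∈ nbr src dst v, w ∈ S) :
    ∃ x l, TS src dst S x l := by
  classical
  have h2 : (S \ C).card = 2 := by rw [card_sdiff_of_subset hC]; omega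
  obtain ⟨x, y, hxy, hSC⟩ := card_eq_two.1 h2
  have hx : x ∈ S ∧ x ∉ C := by
    rw [← mem_sdiff, hSC]; simp
  have hy : y ∈ S ∧ y ∉ C := by
    rw [← mem_sdiff, hSC]; simp
  have hmem : ∀ v ∈ S, v ∉ C → v = x ∨ v = y := by
    intro v h3 h4
    have : v ∈ S \ C := mem_sdiff.2 ⟨h3, h4⟩
    rw [hSC] at this
    simpa using this
  have dx := nbr_three hM (hnis x hx.1) (hnis y hy.1) hxy.symm
  have dy := nbr_three hM (hnis y hy.1) (hnis x hx.1) hxy
  have inx := hin x hx.1 hx.2
  have iny := hin y hy.1 hy.2
  -- `x` and `y` are adjacent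
  have hadj : y ∈ nbr src dst x := by
    by_contra hno
    have h3 : nbr src dst x ⊆ C := by
      intro w hw
      by_contra hwC
      rcases hmem w (inx w hw) hwC with rfl | rfl
      · rw [mem_nbr] at hw; exact hw.1 rfl
      · exact hno hw
    have h4 : nbr src dst y ⊆ C := by
      intro w hw
      by_contra hwC
      rcases hmem w (iny w hw) hwC with rfl | rfl
      · exact hno (nbr_symm hw)
      · rw [mem_nbr] at hw; exact hw.1 rfl
    have h5 := nbr_common hM hxy
    have h6 := card_le_card (union_subset h3 h4)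
    have h7 := card_union_add_card_inter (nbr src dst x) (nbr src dst y)
    omega
  have hdj := nbr_disj hM hadj
  have hx3 : (nbr src dst x).erase y ⊆ C := by
    intro w hw
    rw [mem_erase] at hw
    by_contra hwC
    rcases hmem w (inx w hw.2) hwC with rfl | rfl
    · exact (mem_nbr.1 hw.2).1 rfl
    · exact hw.1 rfl
  have hy3 : (nbr src dst y).erase x ⊆ C := by
    intro w hw
    rw [mem_erase] at hw
    by_contra hwC
    rcases hmem w (iny w hw.2) hwC with rfl | rfl
    · exact hw.1 rfl
    · exact (mem_nbr.1 hw.2).1 rfl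
  have cx : ((nbr src dst x).erase y).card = (nbr src dst x).card - 1 :=
    card_erase_of_mem hadj
  have cy : ((nbr src dst y).erase x).card = (nbr src dst y).card - 1 :=
    card_erase_of_mem (nbr_symm hadj)
  have hdj2 : Disjoint ((nbr src dst x).erase y) ((nbr src dst y).erase x) :=
    hdj.mono (erase_subset _ _) (erase_subset _ _)
  have h8 := card_le_card (union_subset hx3 hy3)
  rw [card_union_of_disjoint hdj2] at h8
  have ex2 : ((nbr src dst x).erase y).card = 2 := by omega
  have ey2 : ((nbr src dst y).erase x).card = 2 := by omega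
  have hCeq : ((nbr src dst x).erase y) ∪ ((nbr src dst y).erase x) = C :=
    eq_of_subset_of_card_le (union_subset hx3 hy3) (by rw [card_union_of_disjoint hdj2]; omega)
  obtain ⟨a, b, hab, hxab⟩ := card_eq_two.1 ex2
  obtain ⟨c, d, hcd, hycd⟩ := card_eq_two.1 ey2
  have ha : a ∈ (nbr src dst x).erase y := by rw [hxab]; simp
  have hb : b ∈ (nbr src dst x).erase y := by rw [hxab]; simp
  have hc : c ∈ (nbr src dst y).erase x := by rw [hycd]; simp
  have hd : d ∈ (nbr src dst y).erase x := by rw [hycd]; simp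
  have hac : a ≠ c := fun h => disjoint_left.1 hdj2 ha (h ▸ hc)
  have had : a ≠ d := fun h => disjoint_left.1 hdj2 ha (h ▸ hd)
  have hbc : b ≠ c := fun h => disjoint_left.1 hdj2 hb (h ▸ hc)
  have hbd : b ≠ d := fun h => disjoint_left.1 hdj2 hb (h ▸ hd)
  have hnC : ∀ w ∈ C, w ≠ x ∧ w ≠ y := fun w hw =>
    ⟨fun h => hx.2 (h ▸ hw), fun h => hy.2 (h ▸ hw)⟩
  have haC := hnC a (hx3 ha)
  have hbC := hnC b (hx3 hb)
  have hcC := hnC c (hy3 hc)
  have hdC := hnC d (hy3 hd)
  refine ⟨![x, y], ![a, b, c, d], ?_, ?_, ?_, ?_, ?_, ?_, ?_, ?_, ?_⟩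
  · intro s t h
    fin_cases s <;> fin_cases t
    · rfl
    · exact absurd h hxy
    · exact absurd h.symm hxy
    · rfl
  · intro s t h
    fin_cases s <;> fin_cases t
    · rfl
    · exact absurd h hab
    · exact absurd h hac
    · exact absurd h had
    · exact absurd h.symm hab
    · rfl
    · exact absurd h hbc
    · exact absurd h hbd
    · exact absurd h.symm hac
    · exact absurd h.symm hbc
    · rfl
    · exact absurd h hcd
    · exact absurd h.symm had
    · exact absurd h.symm hbd
    · exact absurd h.symm hcd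
    · rfl
  · intro s t
    fin_cases s <;> fin_cases t
    · exact haC.1
    · exact hbC.1
    · exact hcC.1
    · exact hdC.1
    · exact haC.2
    · exact hbC.2
    · exact hcC.2
    · exact hdC.2
  · intro s
    fin_cases s
    · exact hx.1
    · exact hy.1
  · intro t
    fin_cases t
    · exact hC (hx3 ha)
    · exact hC (hx3 hb)
    · exact hC (hy3 hc)
    · exact hC (hy3 hd)
  · intro v hv
    by_cases hvC : v ∈ C
    · rw [← hCeq, mem_union, hxab, hycd, mem_insert, mem_insert, mem_singleton,
        mem_singleton] at hvC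
      right
      rcases hvC with (h | h) | (h | h)
      · exact ⟨0, h⟩
      · exact ⟨1, h⟩
      · exact ⟨2, h⟩
      · exact ⟨3, h⟩
    · left
      rcases hmem v hv hvC with h | h
      · exact ⟨0, h⟩
      · exact ⟨1, h⟩
  · intro s w hw
    fin_cases s
    · by_cases hwy : w = y
      · exact Or.inl hwy
      · right
        have : w ∈ (nbr src dst x).erase y := mem_erase.2 ⟨hwy, hw⟩
        rw [hxab, mem_insert, mem_singleton] at this
        exact this
    · by_cases hwx : w = x
      · exact Or.inl hwx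
      · right
        have : w ∈ (nbr src dst y).erase x := mem_erase.2 ⟨hwx, hw⟩
        rw [hycd, mem_insert, mem_singleton] at this
        exact this
  · intro s
    fin_cases s
    · exact hadj
    · exact nbr_symm hadj
  · intro t
    fin_cases t
    · exact (mem_erase.1 ha).2
    · exact (mem_erase.1 hb).2
    · exact (mem_erase.1 hc).2
    · exact (mem_erase.1 hd).2

end Pool.T9h45.MM
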